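import Pool.Agent.KS6_48.PH.Lin

/-!
Certificates for independence.
-/

namespace Pool.Agent.KS6_48.PH

open Finset Matrix Pool.Agent.H38.NP Pool.Agent.H38.ER Pool.Agent.H38.Icd

variable {κ : Type} [Fintype κ]

theorem dual_vec (f : (κ → ℝ) →ₗ[ℝ] ℝ) : ∃ z : κ → ℝ, ∀ x, f x = x ⬝ᵥ z := by
  classical
  refine ⟨fun i => f (Pi.single i 1), fun x => ?_⟩
  conv_lhs => rw [← Finset.univ_sum_single x]
  rw [map_sum, dotProduct]
  refine sum_congr rfl fun i _ => ?_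
  rw [← mul_one (x i), ← smul_eq_mul (x i), Pi.single_smul, map_smul]
  simp

theorem fredholm {m : ℕ} {P : ℕ → κ → ℝ} {w : κ → ℝ} :
    (∃ μ : ℕ → ℝ, ∑ i ∈ range m, μ i • P i = w) ↔
      ∀ z, (∀ i < m, P i ⬝ᵥ z = 0) → w ⬝ᵥ z = 0 := by
  constructor
  · rintro ⟨μ, rfl⟩ z h
    rw [sum_dotProduct]
    exact sum_eq_zero fun i hi => by rw [smul_dotProduct, h i (mem_range.1 hi), smul_zero]
  · intro h
    by_contra k
    have : w ∉ Submodule.span ℝ (Set.range fun i : Fin m => P i) := fun hw => by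
      obtain ⟨c, hc⟩ := (Submodule.mem_span_range_iff_exists_fun ℝ).1 hw
      refine k ⟨fun i => if h : i < m then c ⟨i, h⟩ else 0, ?_⟩
      rw [Finset.sum_range, ← hc]
      exact sum_congr rfl fun i _ => by simp
    obtain ⟨f, f1, f2⟩ := Submodule.exists_le_ker_of_notMem this
    obtain ⟨z, hz⟩ := dual_vec f
    refine f1 ((hz w).trans (h z fun i hi => ?_))
    rw [← hz]
    exact f2 (Submodule.subset_span ⟨⟨i, hi⟩, rfl⟩)

theorem li_cert {ι : Type} [Fintype ι] [DecidableEq ι] {v : ι → κ → ℝ} :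
    LinearIndependent ℝ v ↔ ∃ b : ι → κ → ℝ, ∀ e f, v e ⬝ᵥ b f = if e = f then 1 else 0 := by
  constructor
  · intro h
    obtain ⟨S, hS⟩ := LinearMap.exists_leftInverse_of_injective (Fintype.linearCombination ℝ v)
      (LinearMap.ker_eq_bot.2 (linearIndependent_iff_injective_fintypeLinearCombination.1 h))
    have : ∀ f, ∃ z : κ → ℝ, ∀ x, S x f = x ⬝ᵥ z := fun f => dual_vec (LinearMap.proj f ∘ₗ S)
    choose b hb using this
    refine ⟨b, fun e f => ?_⟩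
    rw [← hb]
    have := congrFun (LinearMap.congr_fun hS (Pi.single e 1)) f
    simp only [LinearMap.comp_apply, Fintype.linearCombination_apply_single, one_smul,
      LinearMap.id_apply] at this
    rw [this, Pi.single_apply]
    simp only [eq_comm]
  · rintro ⟨b, hb⟩
    rw [Fintype.linearIndependent_iff]
    intro g hg f
    have := congrArg (· ⬝ᵥ b f) hg
    simpa [sum_dotProduct, hb] using this

/-- The polynomial equations that certify independence, in an array of real unknowns. -/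
def Qs (k : ℕ) (p : St) (F : ℕ → ℕ → ℕ → ℕ → ℕ → ℝ) : Prop :=
  (∀ e ∈ p.2.2, (∑ c ∈ range k, F 2 e.2 c 0 0 * F 0 e.1 c 0 0) + (F 1 e.1 0 0 0 + F 3 e.2 0 0 0) = 0) ∧
  (∀ c < k + 1, (∀ d < k, ∑ i ∈ range p.1, F 4 c i 0 0 * F 0 i d 0 0 = if c = d then 1 else 0) ∧
    (∑ i ∈ range p.1, F 4 c i 0 0 * F 1 i 0 0 0 = if c = k then 1 else 0) ∧
    ∑ i ∈ range p.1, F 4 c i 0 0 = 0) ∧
  ((∀ d < k, ∑ j ∈ range p.2.1, F 5 j 0 0 0 * F 2 j d 0 0 = 0) ∧
    ∑ j ∈ range p.2.1, F 5 j 0 0 0 = 0 ∧ ∑ j ∈ range p.2.1, F 5 j 0 0 0 * F 3 j 0 0 0 = 1) ∧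
  ∀ e ∈ p.2.2, ∀ f ∈ p.2.2, ((∑ c ∈ range k, F 2 e.2 c 0 0 * F 6 f.1 f.2 e.1 c) + F 7 f.1 f.2 e.1 0) +
    ((∑ c ∈ range k, F 0 e.1 c 0 0 * F 8 f.1 f.2 e.2 c) + F 9 f.1 f.2 e.2 0) = if e = f then 1 else 0

theorem row_dot {k m n : ℕ} {x A : ℕ → Fin k → ℝ} {e : ℕ × ℕ} (h1 : e.1 < m) (h2 : e.2 < n)
    (b : (Fin m × Option (Fin k)) ⊕ (Fin n × Option (Fin k)) → ℝ) : rowD k m n x A e ⬝ᵥ b =
      (∑ c, A e.2 c * b (.inl (⟨e.1, h1⟩, some c)) + b (.inl (⟨e.1, h1⟩, none))) +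
      (∑ c, x e.1 c * b (.inr (⟨e.2, h2⟩, some c)) + b (.inr (⟨e.2, h2⟩, none))) := by
  simp only [dotProduct, Fintype.sum_sum_type, Fintype.sum_prod_type, rowD, ite_mul, zero_mul,
    Fintype.sum_option, Option.elim, one_mul]
  congr 1
  · rw [sum_eq_single ⟨e.1, h1⟩]
    · simp [add_comm]
    · intro i _ hi
      have : (i : ℕ) ≠ e.1 := fun k => hi (Fin.ext k)
      simp [this]
    · simp
  · rw [sum_eq_single ⟨e.2, h2⟩]
    · simp [add_comm]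
    · intro i _ hi
      have : (i : ℕ) ≠ e.2 := fun k => hi (Fin.ext k)
      simp [this]
    · simp

theorem pt_eq {k : ℕ} {x : Fin k → ℝ} {y : ℝ} {z : Fin k ⊕ Fin 2 → ℝ} :
    (Sum.elim x ![y, 1] : Fin k ⊕ Fin 2 → ℝ) ⬝ᵥ z = x ⬝ᵥ (fun c => z (.inl c)) + y * z (.inr 0) + z (.inr 1) := by
  simp [dotProduct, add_assoc]

end Pool.Agent.KS6_48.PH
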