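import Pool.Graph.R_pool_sql_team_ae5b0c61.H38.Icd.Cmp
import Pool.Graph.R_pool_sql_team_ae5b0c61.H38.ER.FmPT

/-!
Independence of incidence structures of points and hyperplanes in real space of any dimension.
-/

namespace Pool.Agent.KS6_48.PH

open Finset Matrix Pool.Agent.H38.NP Pool.Agent.H38.ER Pool.Agent.H38.Icd

/-- The row of the incidence `e = (i, j)` of a point `(x i, y i)` and a hyperplane
`A j ⬝ x + y + C j = 0` in real space of dimension `k + 1`: the coefficients of the linear form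
`A j ⬝ u_i + U_j ⬝ x i + w_i + W_j` in the unknown vectors `u_i`, `U_j` of length `k` and the unknown
numbers `w_i`, `W_j`. The columns `inl (i, some c)`, `inl (i, none)`, `inr (j, some c)`,
`inr (j, none)` belong to the unknowns `u_i c`, `w_i`, `U_j c`, `W_j`. -/
def rowD (k m n : ℕ) (x A : ℕ → Fin k → ℝ) (e : ℕ × ℕ) :
    (Fin m × Option (Fin k)) ⊕ (Fin n × Option (Fin k)) → ℝ
  | .inl (i, c) => if (i : ℕ) = e.1 then c.elim 1 (A e.2) else 0
  | .inr (j, c) => if (j : ℕ) = e.2 then c.elim 1 (x e.1) else 0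

/-- The incidence structure `p = (m, n, I)` of points `0, …, m - 1` and hyperplanes `0, …, n - 1` is
independent in real space of dimension `k + 1`: there are points `(x i, y i)` and hyperplanes
`A j ⬝ x + y + C j = 0` that satisfy all incidences, with the points not all on one hyperplane and
the hyperplanes not all through one point, at which the rows of the incidences are linearly
independent. -/
def IndepD (k : ℕ) (p : ℕ × ℕ × List (ℕ × ℕ)) : Prop :=
  ∃ (x : ℕ → Fin k → ℝ) (y : ℕ → ℝ) (A : ℕ → Fin k → ℝ) (C : ℕ → ℝ),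
    (∀ e ∈ p.2.2, A e.2 ⬝ᵥ x e.1 + y e.1 + C e.2 = 0) ∧
    (¬ ∃ (a : Fin k → ℝ) (b c : ℝ), (a ≠ 0 ∨ b ≠ 0) ∧ ∀ i < p.1, a ⬝ᵥ x i + b * y i + c = 0) ∧
    (¬ ∃ (s : Fin k → ℝ) (t : ℝ), ∀ j < p.2.1, A j ⬝ᵥ s + t + C j = 0) ∧
    LinearIndependent ℝ fun e : {e // e ∈ p.2.2} => rowD k p.1 p.2.1 x A e

end Pool.Agent.KS6_48.PH
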