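import Pool.Agent.KS6_48.PH.Lin

/-!
Homogeneous coordinates and changes of coordinates.
-/

namespace Pool.Agent.KS6_48.PH

open Finset Matrix Pool.Agent.H38.NP Pool.Agent.H38.ER Pool.Agent.H38.Icd

variable {κ : Type}

def RzD [Fintype κ] (p : St) (P L : ℕ → κ → ℝ) : Prop :=
  (∀ i < p.1, P i ≠ 0) ∧ (∀ j < p.2.1, L j ≠ 0) ∧ ∀ e ∈ p.2.2, P e.1 ⬝ᵥ L e.2 = 0

def NoD (p : St) (P L : ℕ → κ → ℝ) : Prop := ∀ l : ℕ → ℕ → ℝ, (∀ i j, l i j ≠ 0 → (i, j) ∈ p.2.2) →
  (∀ i < p.1, ∑ j ∈ range p.2.1, l i j • L j = 0) →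
  (∀ j < p.2.1, ∑ i ∈ range p.1, l i j • P i = 0) → ∀ i j, l i j = 0

theorem NoD.scale {p : St} (h : InRange p) {P L P' L' : ℕ → κ → ℝ} {z B : ℕ → ℝ}
    (hz : ∀ i < p.1, z i ≠ 0 ∧ P i = z i • P' i) (hB : ∀ j < p.2.1, B j ≠ 0 ∧ L j = B j • L' j)
    (s : NoD p P L) : NoD p P' L' := fun l hl a b i j => by
  have := s (fun i j => l i j / (z i * B j)) (fun i j e => hl i j fun k => e (by simp [k]))
    (fun i hi => ?_) (fun j hj => ?_) i j
  · by_contra k
    have h1 := h _ (hl i j k)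
    simp [k, (hz _ h1.1).1, (hB _ h1.2).1] at this
  · rw [← smul_zero (z i)⁻¹, ← a i hi, smul_sum]
    refine sum_congr rfl fun j hj => ?_
    obtain ⟨h1, h2⟩ := hB j (mem_range.1 hj)
    have := (hz i hi).1
    rw [h2, smul_smul, smul_smul]; congr 1; field_simp
  · rw [← smul_zero (B j)⁻¹, ← b j hj, smul_sum]
    refine sum_congr rfl fun i hi => ?_
    obtain ⟨h1, h2⟩ := hz i (mem_range.1 hi)
    have := (hB j hj).1
    rw [h2, smul_smul, smul_smul]; congr 1; field_simp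

theorem NoD.map {κ' : Type} {p : St} {P L : ℕ → κ → ℝ} (s : NoD p P L)
    (f : (κ → ℝ) ≃ₗ[ℝ] (κ' → ℝ)) : NoD p (fun i => f (P i)) fun j => f (L j) :=
  fun l hl a b => s l hl (fun i hi => f.injective (by simpa [map_sum] using a i hi))
    fun j hj => f.injective (by simpa [map_sum] using b j hj)

def ptH {k : ℕ} (x : Fin k → ℝ) (y : ℝ) : Fin k ⊕ Fin 2 → ℝ := Sum.elim x ![y, 1]
def plH {k : ℕ} (A : Fin k → ℝ) (C : ℝ) : Fin k ⊕ Fin 2 → ℝ := Sum.elim A ![1, C]

theorem pt_pl {k : ℕ} (x A : Fin k → ℝ) (y C : ℝ) : ptH x y ⬝ᵥ plH A C = A ⬝ᵥ x + y + C := by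
  rw [ptH, plH, sumElim_dotProduct_sumElim, dotProduct_comm]; simp [add_assoc]

theorem aff {k : ℕ} {p : St} (h : InRange p) {x : ℕ → Fin k → ℝ} {y : ℕ → ℝ} {A : ℕ → Fin k → ℝ}
    {C : ℕ → ℝ} (inc : ∀ e ∈ p.2.2, A e.2 ⬝ᵥ x e.1 + y e.1 + C e.2 = 0) :
    (LinearIndependent ℝ fun e : {e // e ∈ p.2.2} => rowD k p.1 p.2.1 x A e) ↔
      NoD p (fun i => ptH (x i) (y i)) fun j => plH (A j) (C j) := by
  obtain ⟨m, n, I⟩ := p
  refine (bridgeD h x A).trans (forall_congr' fun l => forall_congr' fun hl => ?_)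
  have c : ∀ i j, l i j * (A j ⬝ᵥ x i) + l i j * y i + l i j * C j = 0 := fun i j => by
    by_cases e : l i j = 0
    · simp [e]
    · linear_combination l i j * inc _ (hl i j e)
  refine imp_congr (forall₂_congr fun i hi => ?_) (imp_congr (forall₂_congr fun j hj => ?_) Iff.rfl)
  · constructor
    · rintro ⟨a1, a2⟩
      have a3 : ∑ j ∈ range n, l i j * C j = 0 := by
        have := sum_eq_zero (s := range n) fun j _ => c i j
        simp only [sum_add_distrib, ← sum_mul, a1, ← smul_eq_mul (l i _) (A _ ⬝ᵥ _), ← smul_dotProduct,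
          ← sum_dotProduct, a2] at this
        simpa using this
      ext c
      rcases c with c | c
      · simpa [plH] using congrFun a2 c
      · fin_cases c
        · simpa [plH] using a1
        · simpa [plH] using a3
    · intro e
      exact ⟨by simpa [plH] using congrFun e (.inr 0), by
        ext c; simpa [plH] using congrFun e (.inl c)⟩
  · constructor
    · rintro ⟨a1, a2⟩
      have a3 : ∑ i ∈ range m, l i j * y i = 0 := by
        have := sum_eq_zero (s := range m) fun i _ => c i j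
        simp only [sum_add_distrib, ← sum_mul, a1, ← smul_eq_mul (l _ j) (A _ ⬝ᵥ _), ← dotProduct_smul,
          ← dotProduct_sum, a2] at this
        simpa using this
      ext c
      rcases c with c | c
      · simpa [ptH] using congrFun a2 c
      · fin_cases c
        · simpa [ptH] using a3
        · simpa [ptH] using a1
    · intro e
      exact ⟨by simpa [ptH] using congrFun e (.inr 1), by
        ext c; simpa [ptH] using congrFun e (.inl c)⟩

theorem ind_sD {k : ℕ} {p : St} (h : InRange p) (i : IndepD k p) :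
    ∃ P L : ℕ → Fin k ⊕ Fin 2 → ℝ, RzD p P L ∧ NoD p P L := by
  obtain ⟨x, y, A, C, h1, -, -, h2⟩ := i
  exact ⟨_, _, ⟨fun i _ e => by simpa [ptH] using congrFun e (.inr 1),
    fun i _ e => by simpa [plH] using congrFun e (.inr 0), fun e he => by
      rw [pt_pl]; exact h1 e he⟩, (aff h h1).1 h2⟩

variable [Fintype κ]

theorem gen (Z : List (κ → ℝ)) (h : ∀ z ∈ Z, z ≠ 0) : ∃ u : κ → ℝ, ∀ z ∈ Z, z ⬝ᵥ u ≠ 0 := by
  induction Z with
  | nil => exact ⟨0, by simp⟩
  | cons z Z ih =>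
    obtain ⟨u, hu⟩ := ih fun z hz => h z (by simp [hz])
    have hz := h z (by simp)
    have lin : ∀ a b : ℝ, (a ≠ 0 ∨ b ≠ 0) → ∀ᶠ t : ℝ in Filter.cofinite, a + t * b ≠ 0 := fun a b h =>
      (Set.subsingleton_of_forall_eq (-a / b) fun t ht => by
        have ht : a + t * b = 0 := by simpa using ht
        have : b ≠ 0 := by rintro rfl; simp_all
        field_simp; linarith).finite
    obtain ⟨t, h1, h2⟩ := ((lin (z ⬝ᵥ u) (z ⬝ᵥ z) (.inr (by simpa using hz))).and
      ((Filter.eventually_all_finite Z.finite_toSet).2 fun w hw =>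
        lin (w ⬝ᵥ u) (w ⬝ᵥ z) (.inl (hu w hw)))).exists
    refine ⟨u + t • z, fun w hw => ?_⟩
    rw [dotProduct_add, dotProduct_smul, smul_eq_mul]
    rcases List.mem_cons.1 hw with rfl | hw
    exacts [h1, h2 w hw]

theorem orth (S : List (κ → ℝ)) (h : S.length < Fintype.card κ) :
    ∃ t : κ → ℝ, t ≠ 0 ∧ ∀ s ∈ S, s ⬝ᵥ t = 0 := by
  have : LinearMap.ker (Matrix.mulVecLin (of fun i : Fin S.length => S.get i)) ≠ ⊥ :=
    LinearMap.ker_ne_bot_of_finrank_lt (by simpa using h)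
  obtain ⟨t, h1, h2⟩ := Submodule.exists_mem_ne_zero_of_ne_bot this
  refine ⟨t, h2, fun s hs => ?_⟩
  obtain ⟨i, rfl⟩ := List.get_of_mem hs
  exact congrFun (show _ *ᵥ t = 0 from h1) i

theorem rot {κ' : Type} [Fintype κ'] [DecidableEq κ'] (hc : Fintype.card κ = Fintype.card κ')
    {v w : κ → ℝ} (hv : v ≠ 0) (hw : w ≠ 0) (h : v ⬝ᵥ w = 0) {a b : κ'} (hab : a ≠ b) :
    ∃ f : (κ → ℝ) ≃ₗ[ℝ] (κ' → ℝ), (∀ x y, f x ⬝ᵥ f y = x ⬝ᵥ y) ∧ ∃ c d : ℝ, c ≠ 0 ∧ d ≠ 0 ∧
      ∀ x, f x a = c * (v ⬝ᵥ x) ∧ f x b = d * (w ⬝ᵥ x) := by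
  have hv' : ‖WithLp.toLp 2 v‖ ≠ 0 := by simpa using hv
  have hw' : ‖WithLp.toLp 2 w‖ ≠ 0 := by simpa using hw
  let e : κ' → EuclideanSpace ℝ κ := fun i => if i = a then ‖WithLp.toLp 2 v‖⁻¹ • WithLp.toLp 2 v else
    ‖WithLp.toLp 2 w‖⁻¹ • WithLp.toLp 2 w
  have ea : e a = ‖WithLp.toLp 2 v‖⁻¹ • WithLp.toLp 2 v := if_pos rfl
  have eb : e b = ‖WithLp.toLp 2 w‖⁻¹ • WithLp.toLp 2 w := if_neg hab.symm
  have oab : inner ℝ (e a) (e b) = 0 := by
    rw [ea, eb, inner_smul_left, inner_smul_right, EuclideanSpace.inner_toLp_toLp]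
    simp [dotProduct_comm w v, h]
  obtain ⟨B, hB⟩ := Orthonormal.exists_orthonormalBasis_extension_of_card_eq (𝕜 := ℝ)
    (E := EuclideanSpace ℝ κ) (ι := κ') (by simpa using hc) (v := e) (s := {a, b}) (by
      constructor
      · rintro ⟨i, rfl | rfl⟩
        · simp only [Set.domRestrict_apply, ea, norm_smul, norm_inv, norm_norm]
          exact inv_mul_cancel₀ hv'
        · simp only [Set.domRestrict_apply, eb, norm_smul, norm_inv, norm_norm]
          exact inv_mul_cancel₀ hw'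
      · rintro ⟨i, rfl | rfl⟩ ⟨j, rfl | rfl⟩ n
        · exact absurd rfl n
        · exact oab
        · exact (real_inner_comm _ _).trans oab
        · exact absurd rfl n)
  have Ba := hB a (by simp)
  have Bb := hB b (by simp)
  refine ⟨(WithLp.linearEquiv 2 ℝ (κ → ℝ)).symm ≪≫ₗ B.repr.toLinearEquiv ≪≫ₗ
    WithLp.linearEquiv 2 ℝ (κ' → ℝ), fun x y => ?_, ‖WithLp.toLp 2 v‖⁻¹, ‖WithLp.toLp 2 w‖⁻¹,
      inv_ne_zero hv', inv_ne_zero hw', fun x => ⟨?_, ?_⟩⟩
  · have := B.repr.inner_map_map (WithLp.toLp 2 y) (WithLp.toLp 2 x)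
    simp only [EuclideanSpace.inner_eq_star_dotProduct, star_trivial] at this
    exact this
  · have := B.repr_apply_apply (WithLp.toLp 2 x) a
    rw [Ba, ea, inner_smul_left, EuclideanSpace.inner_toLp_toLp] at this
    simpa [dotProduct_comm x v] using this
  · have := B.repr_apply_apply (WithLp.toLp 2 x) b
    rw [Bb, eb, inner_smul_left, EuclideanSpace.inner_toLp_toLp] at this
    simpa [dotProduct_comm x w] using this

theorem ind_cD {k : ℕ} (hc : Fintype.card κ = k + 2) {p : St} (h : InRange p) {P L : ℕ → κ → ℝ}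
    (r : RzD p P L) (s : NoD p P L) (n1 : ∀ z, (∀ i < p.1, P i ⬝ᵥ z = 0) → z = 0)
    (n2 : ∀ z, (∀ j < p.2.1, z ⬝ᵥ L j = 0) → z = 0) : IndepD k p := by
  obtain ⟨r1, r2, r3⟩ := r
  have orth1 : ∀ z : κ → ℝ, ∃ t : κ → ℝ, t ≠ 0 ∧ z ⬝ᵥ t = 0 := fun z => by
    simpa using orth [z] (by simp; omega)
  choose T T0 T1 using orth1
  obtain ⟨w, hw⟩ := gen ((List.range p.1).map P ++ (List.range p.2.1).map (fun j => T (L j)) ++ [T 0])
    (by
      simp only [List.forall_mem_append, List.forall_mem_map, List.mem_range, List.mem_singleton,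
        forall_eq]
      exact ⟨⟨r1, fun _ _ => T0 _⟩, T0 _⟩)
  simp only [List.forall_mem_append, List.forall_mem_map, List.mem_range, List.mem_singleton,
    forall_eq] at hw
  obtain ⟨⟨w1, w2⟩, w3⟩ := hw
  have w0 : w ≠ 0 := by rintro rfl; simp at w3
  have ww : w ⬝ᵥ w ≠ 0 := by simpa using w0
  obtain ⟨u, hu⟩ := gen ((List.range p.2.1).map (fun j => L j - (L j ⬝ᵥ w / (w ⬝ᵥ w)) • w) ++ [T w])
    (by
      simp only [List.forall_mem_append, List.forall_mem_map, List.mem_range, List.mem_singleton,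
        forall_eq]
      refine ⟨fun j hj e => ?_, T0 _⟩
      have e := sub_eq_zero.1 e
      have k := T1 (L j)
      rw [e, smul_dotProduct, smul_eq_mul] at k
      rcases mul_eq_zero.1 k with k | k
      · rw [k, zero_smul] at e; exact r2 j hj e
      · rw [← e] at k; exact w2 j hj ((dotProduct_comm _ _).trans k))
  simp only [List.forall_mem_append, List.forall_mem_map, List.mem_range, List.mem_singleton,
    forall_eq, sub_dotProduct, smul_dotProduct, smul_eq_mul] at hu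
  obtain ⟨u1, u2⟩ := hu
  obtain ⟨v, hv⟩ : ∃ v, v = u - (u ⬝ᵥ w / (w ⬝ᵥ w)) • w := ⟨_, rfl⟩
  have vw : v ⬝ᵥ w = 0 := by
    rw [hv, sub_dotProduct, smul_dotProduct, smul_eq_mul, div_mul_cancel₀ _ ww, sub_self]
  have v0 : v ≠ 0 := by
    rintro rfl
    have : u = (u ⬝ᵥ w / (w ⬝ᵥ w)) • w := sub_eq_zero.1 hv.symm
    rw [this, dotProduct_smul, dotProduct_comm (T w), T1] at u2
    simp at u2
  have vL : ∀ j < p.2.1, v ⬝ᵥ L j ≠ 0 := fun j hj e => u1 j hj (by
    rw [hv, sub_dotProduct, smul_dotProduct, smul_eq_mul] at e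
    rw [dotProduct_comm (L j) u, dotProduct_comm (L j) w, dotProduct_comm w u, ← e]; ring)
  obtain ⟨f, f1, c, d, c0, d0, f2⟩ := rot (κ' := Fin k ⊕ Fin 2) (by simp [hc]) v0 w0 vw
    (a := .inr 0) (b := .inr 1) (by simp)
  obtain ⟨z, hz⟩ : ∃ z : ℕ → ℝ, ∀ i, z i = f (P i) (.inr 1) := ⟨_, fun _ => rfl⟩
  obtain ⟨B, hB⟩ : ∃ B : ℕ → ℝ, ∀ j, B j = f (L j) (.inr 0) := ⟨_, fun _ => rfl⟩
  have z0 : ∀ i < p.1, z i ≠ 0 := fun i hi => by
    rw [hz, (f2 _).2, dotProduct_comm]; exact mul_ne_zero d0 (w1 i hi)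
  have B0 : ∀ j < p.2.1, B j ≠ 0 := fun j hj => by
    rw [hB, (f2 _).1]; exact mul_ne_zero c0 (vL j hj)
  have eP : ∀ i < p.1, f (P i) = z i • ptH (fun c => f (P i) (.inl c) / z i)
      (f (P i) (.inr 0) / z i) := fun i hi => by
    have := z0 i hi
    ext c
    rcases c with c | c
    · simp [ptH]; field_simp
    · fin_cases c
      · simp [ptH]; field_simp
      · simp [ptH, hz]
  have eL : ∀ j < p.2.1, f (L j) = B j • plH (fun c => f (L j) (.inl c) / B j)
      (f (L j) (.inr 1) / B j) := fun j hj => by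
    have := B0 j hj
    ext c
    rcases c with c | c
    · simp [plH]; field_simp
    · fin_cases c
      · simp [plH, hB]
      · simp [plH]; field_simp
  have inc : ∀ e ∈ p.2.2, (fun c => f (L e.2) (.inl c) / B e.2) ⬝ᵥ (fun c => f (P e.1) (.inl c) / z e.1) +
      f (P e.1) (.inr 0) / z e.1 + f (L e.2) (.inr 1) / B e.2 = 0 := fun e he => by
    have a := (f1 (P e.1) (L e.2)).trans (r3 e he)
    rw [eP _ (h e he).1, eL _ (h e he).2, smul_dotProduct, dotProduct_smul, pt_pl] at a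
    simpa [z0 _ (h e he).1, B0 _ (h e he).2] using a
  refine ⟨fun i c => f (P i) (.inl c) / z i, fun i => f (P i) (.inr 0) / z i,
    fun j c => f (L j) (.inl c) / B j, fun j => f (L j) (.inr 1) / B j, inc, ?_, ?_,
    (aff h inc).2 ((s.map f).scale h (fun i hi => ⟨z0 i hi, eP i hi⟩) fun j hj => ⟨B0 j hj, eL j hj⟩)⟩
  · rintro ⟨a, b, c, ne, e⟩
    have := n1 (f.symm (Sum.elim a ![b, c])) fun i hi => by
      rw [← f1, f.apply_symm_apply, eP i hi, smul_dotProduct, ptH, sumElim_dotProduct_sumElim,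
        dotProduct_comm _ a]
      have := e i hi
      simp only [smul_eq_mul, mul_eq_zero, cons_dotProduct_cons, dotProduct_of_isEmpty]
      right; linear_combination this
    rw [LinearEquiv.map_eq_zero_iff] at this
    rcases ne with ne | ne
    · exact ne (funext fun c => congrFun this (.inl c))
    · exact ne (congrFun this (.inr 0))
  · rintro ⟨a, b, e⟩
    have := n2 (f.symm (Sum.elim a ![b, 1])) fun i hi => by
      rw [← f1, f.apply_symm_apply, eL i hi, dotProduct_smul, plH, sumElim_dotProduct_sumElim,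
        dotProduct_comm a]
      have := e i hi
      simp only [smul_eq_mul, mul_eq_zero, cons_dotProduct_cons, dotProduct_of_isEmpty]
      right; linear_combination this
    rw [LinearEquiv.map_eq_zero_iff] at this
    simpa using congrFun this (.inr 1)

end Pool.Agent.KS6_48.PH
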