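import Pool.Agent.KS6_48.PH.Cert
import Pool.Agent.KS6_48.PH.Hom

/-!
Membership in the class of the existential theory of the reals.
-/

namespace Pool.Agent.KS6_48.PH

open Finset Matrix Pool.Agent.H38.NP Pool.Agent.H38.ER Pool.Agent.H38.Icd

theorem vecP {k m : ℕ} {μ : ℕ → ℝ} {x : ℕ → Fin k → ℝ} {y : ℕ → ℝ} {u : Fin k → ℝ} {s t : ℝ} :
    ∑ i ∈ range m, μ i • ptH (x i) (y i) = Sum.elim u ![s, t] ↔
      (∀ d, ∑ i ∈ range m, μ i * x i d = u d) ∧ ∑ i ∈ range m, μ i * y i = s ∧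
        ∑ i ∈ range m, μ i = t := by
  rw [funext_iff, Sum.forall, Fin.forall_fin_two]
  simp [ptH]

theorem vecL {k m : ℕ} {μ : ℕ → ℝ} {A : ℕ → Fin k → ℝ} {C : ℕ → ℝ} {u : Fin k → ℝ} {s t : ℝ} :
    ∑ i ∈ range m, μ i • plH (A i) (C i) = Sum.elim u ![s, t] ↔
      (∀ d, ∑ i ∈ range m, μ i * A i d = u d) ∧ ∑ i ∈ range m, μ i = s ∧
        ∑ i ∈ range m, μ i * C i = t := by
  rw [funext_iff, Sum.forall, Fin.forall_fin_two]
  simp [plH]

theorem cert_s {k : ℕ} {p : St} (h : InRange p) {F : ℕ → ℕ → ℕ → ℕ → ℕ → ℝ} (H : Qs k p F) :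
    IndepD k p := by
  obtain ⟨m, n, I⟩ := p
  obtain ⟨h1, h2, h3, h4⟩ := H
  simp only at h1 h2 h3 h4
  refine ⟨fun i (c : Fin k) => F 0 i c 0 0, fun i => F 1 i 0 0 0, fun j (c : Fin k) => F 2 j c 0 0,
    fun j => F 3 j 0 0 0, fun e he => ?_, ?_, ?_, li_cert.2
      ⟨fun f => Sum.elim (fun q => q.2.elim (F 7 f.1.1 f.1.2 q.1 0) fun c => F 6 f.1.1 f.1.2 q.1 c)
        fun q => q.2.elim (F 9 f.1.1 f.1.2 q.1 0) fun c => F 8 f.1.1 f.1.2 q.1 c, fun e f => ?_⟩⟩
  · have := h1 e he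
    rw [Finset.sum_range] at this
    rw [dotProduct, add_assoc]; exact this
  · rintro ⟨a, b, c, ne, e⟩
    have key : ∀ c' < k + 1, (∑ d : Fin k, (if c' = d then 1 else 0) * a d) +
        (if c' = k then 1 else 0) * b = 0 := fun c' hc' => by
      obtain ⟨k1, k2, k3⟩ := h2 c' hc'
      have := (fredholm (P := fun i => ptH (fun c : Fin k => F 0 i c 0 0) (F 1 i 0 0 0))
        (m := m)).1 ⟨fun i => F 4 c' i 0 0, vecP.2 ⟨fun d => k1 d d.2, k2, k3⟩⟩ (Sum.elim a ![b, c])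
        fun i hi => by
          rw [ptH, sumElim_dotProduct_sumElim, dotProduct_comm]
          have := e i hi
          simp only [cons_dotProduct_cons, dotProduct_of_isEmpty]
          linear_combination this
      rw [sumElim_dotProduct_sumElim] at this
      simpa [dotProduct] using this
    have ha : a = 0 := funext fun d => by
      have := key d (by omega)
      rw [if_neg (by omega)] at this
      simpa [Fin.val_inj] using this
    have hb : b = 0 := by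
      have := key k (by omega)
      rw [ha] at this
      simpa using this
    simp [ha, hb] at ne
  · rintro ⟨s, t, e⟩
    obtain ⟨k1, k2, k3⟩ := h3
    have := (fredholm (P := fun i => plH (fun c : Fin k => F 2 i c 0 0) (F 3 i 0 0 0))
      (m := n)).1 ⟨fun i => F 5 i 0 0 0, vecL.2 ⟨fun d => k1 d d.2, k2, k3⟩⟩ (Sum.elim s ![t, 1])
      fun i hi => by
        rw [plH, sumElim_dotProduct_sumElim]
        have := e i hi
        simp only [cons_dotProduct_cons, dotProduct_of_isEmpty]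
        linear_combination this
    rw [sumElim_dotProduct_sumElim] at this
    simp [dotProduct] at this
  · have := h4 e e.2 f f.2
    rw [row_dot (h _ e.2).1 (h _ e.2).2]
    simp only [Finset.sum_range] at this
    simp only [Sum.elim_inl, Sum.elim_inr, Option.elim, this, Subtype.ext_iff]

theorem cert_c {k : ℕ} {p : St} (h : InRange p) (H : IndepD k p) :
    ∃ F : ℕ → ℕ → ℕ → ℕ → ℕ → ℝ, Qs k p F := by
  obtain ⟨m, n, I⟩ := p
  obtain ⟨x, y, A, C, h1, h2, h3, h4⟩ := H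
  obtain ⟨b, hb⟩ := li_cert.1 h4
  have e2 : ∀ c', ∃ μ : ℕ → ℝ, ∑ i ∈ range m, μ i • ptH (x i) (y i) =
      Sum.elim (fun d : Fin k => if c' = (d : ℕ) then (1 : ℝ) else 0) ![if c' = k then 1 else 0, 0] :=
    fun c' => fredholm.2 fun z hz => by
      have ab : (fun c => z (.inl c)) = 0 ∧ z (.inr 0) = 0 := by
        by_contra ne
        refine h2 ⟨fun c => z (.inl c), z (.inr 0), z (.inr 1), by tauto, fun i hi => ?_⟩
        have := hz i hi
        rw [ptH, pt_eq] at this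
        rw [dotProduct_comm]; linear_combination this
      simp only [dotProduct, Fintype.sum_sum_type, Sum.elim_inl, Sum.elim_inr, Fin.sum_univ_two]
      simp [ab.2, fun c => show z (.inl c) = 0 from congrFun ab.1 c]
  choose μ hμ using e2
  obtain ⟨ν, hν⟩ : ∃ ν : ℕ → ℝ, ∑ j ∈ range n, ν j • plH (A j) (C j) =
      Sum.elim (0 : Fin k → ℝ) ![0, 1] := fredholm.2 fun z hz => by
    have : z (.inr 1) = 0 := by
      by_contra ne
      refine h3 ⟨fun c => z (.inl c) / z (.inr 1), z (.inr 0) / z (.inr 1), fun j hj => ?_⟩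
      have := hz j hj
      simp only [plH, dotProduct, Fintype.sum_sum_type, Sum.elim_inl, Sum.elim_inr,
        Fin.sum_univ_two] at this
      simp only [dotProduct, ← mul_div_assoc, ← Finset.sum_div]
      field_simp
      simpa [add_assoc, mul_comm] using this
    simp only [dotProduct, Fintype.sum_sum_type, Sum.elim_inl, Sum.elim_inr, Fin.sum_univ_two]
    simp [this]
  let F : ℕ → ℕ → ℕ → ℕ → ℕ → ℝ := fun t a a' c d => match t with
    | 0 => if h : a' < k then x a ⟨a', h⟩ else 0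
    | 1 => y a
    | 2 => if h : a' < k then A a ⟨a', h⟩ else 0
    | 3 => C a
    | 4 => μ a a'
    | 5 => ν a
    | 6 => if h : (a, a') ∈ I ∧ c < m ∧ d < k then
        b ⟨(a, a'), h.1⟩ (.inl (⟨c, h.2.1⟩, some ⟨d, h.2.2⟩)) else 0
    | 7 => if h : (a, a') ∈ I ∧ c < m then b ⟨(a, a'), h.1⟩ (.inl (⟨c, h.2⟩, none)) else 0
    | 8 => if h : (a, a') ∈ I ∧ c < n ∧ d < k then
        b ⟨(a, a'), h.1⟩ (.inr (⟨c, h.2.1⟩, some ⟨d, h.2.2⟩)) else 0
    | _ => if h : (a, a') ∈ I ∧ c < n then b ⟨(a, a'), h.1⟩ (.inr (⟨c, h.2⟩, none)) else 0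
  have F0 : ∀ i (c : Fin k), F 0 i c 0 0 = x i c := fun i c => by simp [F]
  have F1 : ∀ i, F 1 i 0 0 0 = y i := fun _ => rfl
  have F2 : ∀ i (c : Fin k), F 2 i c 0 0 = A i c := fun i c => by simp [F]
  have F3 : ∀ i, F 3 i 0 0 0 = C i := fun _ => rfl
  have F4 : ∀ c i, F 4 c i 0 0 = μ c i := fun _ _ => rfl
  have F5 : ∀ i, F 5 i 0 0 0 = ν i := fun _ => rfl
  have F6 : ∀ (e : {e // e ∈ I}) (i : Fin m) (c : Fin k), F 6 e.1.1 e.1.2 i c = b e (.inl (i, some c)) :=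
    fun e i c => by simp [F, e.2]
  have F7 : ∀ (e : {e // e ∈ I}) (i : Fin m), F 7 e.1.1 e.1.2 i 0 = b e (.inl (i, none)) :=
    fun e i => by simp [F, e.2]
  have F8 : ∀ (e : {e // e ∈ I}) (i : Fin n) (c : Fin k), F 8 e.1.1 e.1.2 i c = b e (.inr (i, some c)) :=
    fun e i c => by simp [F, e.2]
  have F9 : ∀ (e : {e // e ∈ I}) (i : Fin n), F 9 e.1.1 e.1.2 i 0 = b e (.inr (i, none)) :=
    fun e i => by simp [F, e.2]
  refine ⟨F, fun e he => ?_, fun c hc => ?_, ⟨fun d hd => ?_, ?_, ?_⟩, fun e he f hf => ?_⟩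
  · rw [Finset.sum_range]
    simp only [F0, F1, F2, F3]
    rw [← add_assoc]; exact h1 e he
  · obtain ⟨k1, k2, k3⟩ := vecP.1 (hμ c)
    refine ⟨fun d hd => ?_, k2, k3⟩
    rw [← k1 ⟨d, hd⟩]
    exact sum_congr rfl fun i _ => by rw [F4, F0 i ⟨d, hd⟩]
  · refine Eq.trans ?_ ((vecL.1 hν).1 ⟨d, hd⟩)
    exact sum_congr rfl fun i _ => by rw [F5, F2 i ⟨d, hd⟩]
  · exact (vecL.1 hν).2.1
  · exact (vecL.1 hν).2.2
  · have := hb ⟨e, he⟩ ⟨f, hf⟩
    rw [row_dot (h _ he).1 (h _ he).2] at this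
    simp only [Finset.sum_range, F0, F2, Subtype.mk.injEq] at this ⊢
    rw [← this, F7 ⟨f, hf⟩ ⟨e.1, (h _ he).1⟩, F9 ⟨f, hf⟩ ⟨e.2, (h _ he).2⟩]
    simp only [fun c => F6 ⟨f, hf⟩ ⟨e.1, (h _ he).1⟩ c, fun c => F8 ⟨f, hf⟩ ⟨e.2, (h _ he).2⟩ c]

/-! the formula -/

def ix (t a b c d : ℕ) : ℕ := Nat.pair t (Nat.pair (Nat.pair a b) (Nat.pair c d))

def vT (t a b c d : ℕ) : Tm := .var (ix t a b c d)

def bT (b : Bool) : Tm := cond b (.num 1) (.num 0)

def smT (n : ℕ) (f : ℕ → Tm) : Tm := sumT ((List.range n).map f)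

theorem ev_vT (F : ℕ → ℕ → ℕ → ℕ → ℕ → ℝ) (t a b c d : ℕ) : (vT t a b c d).ev (fun i => F i.unpair.1
    i.unpair.2.unpair.1.unpair.1 i.unpair.2.unpair.1.unpair.2 i.unpair.2.unpair.2.unpair.1
    i.unpair.2.unpair.2.unpair.2) = F t a b c d := by simp [vT, ix, Tm.ev]

theorem ev_smT (x : ℕ → ℝ) (n : ℕ) (f : ℕ → Tm) :
    (smT n f).ev x = ∑ i ∈ range n, (f i).ev x := by
  rw [smT, ev_sumT, List.map_map, ← List.sum_toFinset _ List.nodup_range, List.toFinset_range]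
  rfl

theorem ev_bT (x : ℕ → ℝ) (P : Prop) [Decidable P] : (bT (decide P)).ev x = if P then 1 else 0 := by
  by_cases h : P <;> simp [bT, h, Tm.ev]

def fml (k : ℕ) (p : St) : Fm :=
  (allF (p.2.2.map fun e => .eq ((smT k fun c => (vT 2 e.2 c 0 0).mul (vT 0 e.1 c 0 0)).add
    ((vT 1 e.1 0 0 0).add (vT 3 e.2 0 0 0))) (.num 0))).and
  ((allF ((List.range (k + 1)).map fun c => (allF ((List.range k).map fun d =>
      .eq (smT p.1 fun i => (vT 4 c i 0 0).mul (vT 0 i d 0 0)) (bT (decide (c = d))))).and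
    ((Fm.eq (smT p.1 fun i => (vT 4 c i 0 0).mul (vT 1 i 0 0 0)) (bT (decide (c = k)))).and
      (.eq (smT p.1 fun i => vT 4 c i 0 0) (.num 0))))).and
  (((allF ((List.range k).map fun d =>
      .eq (smT p.2.1 fun j => (vT 5 j 0 0 0).mul (vT 2 j d 0 0)) (.num 0))).and
    ((Fm.eq (smT p.2.1 fun j => vT 5 j 0 0 0) (.num 0)).and
      (.eq (smT p.2.1 fun j => (vT 5 j 0 0 0).mul (vT 3 j 0 0 0)) (.num 1)))).and
  (allF (p.2.2.flatMap fun e => p.2.2.map fun f =>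
    .eq (((smT k fun c => (vT 2 e.2 c 0 0).mul (vT 6 f.1 f.2 e.1 c)).add (vT 7 f.1 f.2 e.1 0)).add
      ((smT k fun c => (vT 0 e.1 c 0 0).mul (vT 8 f.1 f.2 e.2 c)).add (vT 9 f.1 f.2 e.2 0)))
      (bT (decide (e = f)))))))

theorem holds_fml (k : ℕ) (p : St) (x : ℕ → ℝ) : (fml k p).Holds x ↔
    Qs k p fun t a b c d => x (ix t a b c d) := by
  simp only [fml, Qs, Fm.Holds, holds_allF, List.forall_mem_map, List.forall_mem_flatMap,
    List.mem_range, ev_smT, ev_bT, Tm.ev, vT, Nat.cast_zero, Nat.cast_one]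

theorem etr_fml (k : ℕ) (p : St) : ETR (fml k p) ↔ ∃ F : ℕ → ℕ → ℕ → ℕ → ℕ → ℝ, Qs k p F := by
  constructor
  · rintro ⟨x, hx⟩; exact ⟨_, (holds_fml k p x).1 hx⟩
  · rintro ⟨F, hF⟩
    refine ⟨fun i => F i.unpair.1 i.unpair.2.unpair.1.unpair.1 i.unpair.2.unpair.1.unpair.2
      i.unpair.2.unpair.2.unpair.1 i.unpair.2.unpair.2.unpair.2, (holds_fml k p _).2 ?_⟩
    simpa only [ix, Nat.unpair_pair] using hF

section PTime

variable {α : Type} [Enc α]

@[fun_prop] theorem pt_vT {t a b c d : α → ℕ} (ht : PT t) (ha : PT a) (hb : PT b) (hc : PT c)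
    (hd : PT d) : PT fun z => vT (t z) (a z) (b z) (c z) (d z) := by
  unfold vT ix Nat.pair; fun_prop

@[fun_prop] theorem pt_bT {b : α → Bool} (hb : PT b) : PT fun z => bT (b z) := by
  unfold bT; fun_prop

@[fun_prop] theorem pt_smT {n : α → ℕ} {f : α → ℕ → Tm} (hn : PT n)
    (hf : PT fun p : α × ℕ => f p.1 p.2) : PT fun z => smT (n z) (f z) := by
  unfold smT; fun_prop

end PTime

theorem pt_fml : PT fun q : ℕ × St => fml q.1 q.2 := by
  unfold fml; fun_prop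

def inR (p : St) : Bool := p.2.2.all fun e => decide (e.1 < p.1 ∧ e.2 < p.2.1)

theorem inR_iff (p : St) : inR p = true ↔ InRange p := by simp [inR, InRange]

def fmF (q : ℕ × St) : Fm := cond (inR q.2) (fml q.1 q.2) (.lt (.num 0) (.num 0))

theorem pt_fmF : PT fmF := PT.cond (by unfold inR; fun_prop) pt_fml (PT.const _)

theorem etr_fmF (q : ℕ × St) : ETR (fmF q) ↔ InRange q.2 ∧ IndepD q.1 q.2 := by
  by_cases h : inR q.2 = true
  · rw [fmF, h, cond_true, etr_fml]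
    have h := (inR_iff _).1 h
    exact ⟨fun ⟨F, hF⟩ => ⟨h, cert_s h hF⟩, fun k => cert_c h k.2⟩
  · have h' : ¬ InRange q.2 := fun k => h ((inR_iff _).2 k)
    rw [fmF, Bool.not_eq_true _ |>.mp h, cond_false]
    exact ⟨fun ⟨x, hx⟩ => absurd hx (lt_irrefl _), fun k => absurd k.1 h'⟩

theorem mem_all : Reduces (lang fun q : ℕ × St => InRange q.2 ∧ IndepD q.1 q.2) (lang ETR) :=
  reduces_etr fmF pt_fmF fun q => (etr_fmF q).symm

theorem mem_one (k : ℕ) : Reduces (lang fun p : St => InRange p ∧ IndepD k p) (lang ETR) :=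
  reduces_etr (fun p => fmF (k, p)) (pt_fmF.comp (g := fun p : St => (k, p)) (by fun_prop))
    fun p => (etr_fmF (k, p)).symm

end Pool.Agent.KS6_48.PH
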