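import Pool.Agent.KS6_48.PH.Up
import Pool.Agent.KS6_48.PH.Memb
import Pool.Graph.R_seed8.H642R2.TMSim

/-!
Independence of incidence structures of points and hyperplanes is complete for the existential
theory of the reals.
-/

namespace Pool.Agent.KS6_48.PH

open Finset Matrix Pool.Agent.H38.NP Pool.Agent.H38.ER Pool.Agent.H38.Icd

theorem one {m n : ℕ} {I : List (ℕ × ℕ)} (h : InRange (m, n, I)) (x A : ℕ → ℝ) :
    (LinearIndependent ℝ fun e : {e // e ∈ I} => rowD 1 m n (fun i _ => x i) (fun j _ => A j) e) ↔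
      LinearIndependent ℝ fun e : {e // e ∈ I} => row m n x A e := by
  rw [bridgeD h, bridge h]
  refine forall_congr' fun l => forall_congr' fun hl => imp_congr (forall₂_congr fun i hi => ?_)
    (imp_congr (forall₂_congr fun j hj => ?_) Iff.rfl)
  · rw [and_comm, funext_iff, Fin.forall_fin_one]; simp
  · rw [and_comm, funext_iff, Fin.forall_fin_one]; simp

theorem plane {p : St} (h : InRange p) : IndepD 1 p ↔ Indep p := by
  obtain ⟨m, n, I⟩ := p
  have f1 : ∀ z : Fin 1 → ℝ, z = fun _ => z 0 := fun z => funext fun i => by rw [Fin.fin_one_eq_zero i]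
  constructor
  · rintro ⟨x, y, A, C, h1, h2, h3, h4⟩
    obtain ⟨x, rfl⟩ : ∃ x' : ℕ → ℝ, x = fun i _ => x' i := ⟨fun i => x i 0, funext fun i => f1 _⟩
    obtain ⟨A, rfl⟩ : ∃ x' : ℕ → ℝ, A = fun i _ => x' i := ⟨fun i => A i 0, funext fun i => f1 _⟩
    refine ⟨x, y, A, C, fun e he => by simpa [dotProduct] using h1 e he, fun ⟨a, b, c, ne, e⟩ => ?_,
      fun ⟨s, t, e⟩ => ?_, (one h x A).1 h4⟩
    · refine h2 ⟨fun _ => a, b, c, ne.imp_left fun k k' => k (congrFun k' 0), fun i hi => ?_⟩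
      simpa [dotProduct] using e i hi
    · refine h3 ⟨fun _ => s, t, fun i hi => ?_⟩
      simpa [dotProduct] using e i hi
  · rintro ⟨x, y, A, C, h1, h2, h3, h4⟩
    refine ⟨fun i _ => x i, y, fun j _ => A j, C, fun e he => by simpa [dotProduct] using h1 e he,
      fun ⟨a, b, c, ne, e⟩ => ?_, fun ⟨s, t, e⟩ => ?_, (one h x A).2 h4⟩
    · refine h2 ⟨a 0, b, c, ne.imp_left fun k k' => k ((f1 a).trans (by rw [k']; rfl)), fun i hi => ?_⟩
      simpa [dotProduct] using e i hi
    · refine h3 ⟨s 0, t, fun i hi => ?_⟩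
      simpa [dotProduct] using e i hi

/-- Membership in the complexity class of the existential theory of the reals. -/
def InER (L : Set (List Bool)) : Prop := Reduces L (lang ETR)

/-- Completeness for the existential theory of the reals. -/
def ERComplete (L : Set (List Bool)) : Prop := InER L ∧ ∀ A, InER A → Reduces A L

theorem Reduces.trans {A B C : Set (List Bool)} (h : Reduces A B) (h' : Reduces B C) :
    Reduces A C :=
  let ⟨f, hf, e⟩ := h
  let ⟨g, hg, e'⟩ := h'
  ⟨fun x => g (f x), Pool.Agent.H642R2.TMSim.polyTime_comp hg hf, fun x => (e x).trans (e' _)⟩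

theorem InP.of_reduces {A B : Set (List Bool)} (h : Reduces A B) (h' : InP B) : InP A :=
  let ⟨f, hf, e⟩ := h
  let ⟨g, hg, e'⟩ := h'
  ⟨fun x => g (f x), Pool.Agent.H642R2.TMSim.polyTime_comp hg hf, fun x => (e x).trans (e' _)⟩

theorem ERComplete.inP {L : Set (List Bool)} (h : ERComplete L) : InP L ↔ ∀ A, InER A → InP A :=
  ⟨fun k A hA => InP.of_reduces (h.2 A hA) k, fun k => k L h.1⟩

theorem reduces_of_erh {α : Type} [Enc α] [EncInj α] {C P : α → Prop} (h : ERH C P) :
    Reduces (lang ETR) (lang fun a => C a ∧ P a) := by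
  obtain ⟨f, hf, e⟩ := h.hardOn
  refine ⟨f, hf, fun x => ?_⟩
  obtain ⟨a, ea, ha, k⟩ := e x
  rw [ea, enc_mem_lang, k]
  exact ⟨fun h => ⟨ha, h⟩, fun h => h.2⟩

theorem complete_of {α : Type} [Enc α] [EncInj α] {C P : α → Prop} (h : ERH C P)
    (m : Reduces (lang fun a => C a ∧ P a) (lang ETR)) : ERComplete (lang fun a => C a ∧ P a) :=
  ⟨m, fun _ hA => Reduces.trans hA (reduces_of_erh h)⟩

theorem inPOn_iff {α : Type} [Enc α] [EncInj α] {C P : α → Prop} (h : ERH C P)
    (m : Reduces (lang fun a => C a ∧ P a) (lang ETR)) :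
    InPOn C P ↔ ∀ A, InER A → InP A := by
  constructor
  · rintro ⟨g, hg, eg⟩ A ⟨r, hr, er⟩
    obtain ⟨f, hf, e⟩ := h.hardOn
    refine ⟨fun x => g (f (r x)), Pool.Agent.H642R2.TMSim.polyTime_comp hg
      (Pool.Agent.H642R2.TMSim.polyTime_comp hf hr), fun x => ?_⟩
    obtain ⟨a, ea, ha, k⟩ := e (r x)
    beta_reduce
    rw [er, k, eg a ha, ea]
  · intro k
    obtain ⟨f, hf, e⟩ := k _ m
    refine ⟨f, hf, fun a ha => ?_⟩
    rw [← e, enc_mem_lang]
    exact ⟨fun h => ⟨ha, h⟩, fun h => h.2⟩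

/-! the existential theory of the reals is NP-hard -/

def litF (l : ℕ × Bool) : Fm := cond l.2 (.eq (.var l.1) (.num 1)) (.not (.eq (.var l.1) (.num 1)))

theorem etr_nph : NPH (fun _ : Fm => True) ETR := by
  refine sat3_nph.reduce (fun φ => allF (φ.map fun C => (litF C.1).or ((litF C.2.1).or (litF C.2.2))))
    (by unfold litF; fun_prop) fun φ _ => ⟨trivial, ?_⟩
  have hl : ∀ (x : ℕ → ℝ) (l : ℕ × Bool), (litF l).Holds x ↔ (x l.1 = 1 ↔ l.2 = true) :=
    fun x ⟨v, b⟩ => by cases b <;> simp [litF, Fm.Holds, Tm.ev]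
  simp only [ETR, holds_allF, List.forall_mem_map, Fm.Holds, hl, Sat3]
  classical
  constructor
  · rintro ⟨a, ha⟩
    refine ⟨fun v => if a v = true then 1 else 0, fun C hC => ?_⟩
    have e : ∀ l : ℕ × Bool, a l.1 = l.2 → ((if a l.1 = true then (1 : ℝ) else 0) = 1 ↔ l.2 = true) :=
      fun l h => by rw [h]; cases l.2 <;> simp
    exact (ha C hC).imp (e _) (Or.imp (e _) (e _))
  · rintro ⟨x, hx⟩
    refine ⟨fun v => decide (x v = 1), fun C hC => ?_⟩
    have e : ∀ l : ℕ × Bool, (x l.1 = 1 ↔ l.2 = true) → decide (x l.1 = 1) = l.2 := fun l h => by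
      rw [Bool.eq_iff_iff, decide_eq_true_iff]; exact h
    exact (hx C hC).imp (e _) (Or.imp (e _) (e _))

theorem np_er {A : Set (List Bool)} (h : InNP A) : InER A :=
  etr_nph.npHard (Q := ETR) (fun _ _ => Iff.rfl) A h

theorem ERComplete.npHard {L : Set (List Bool)} (h : ERComplete L) : NPHard L :=
  fun A hA => h.2 A (np_er hA)

theorem uni : ERComplete (lang fun q : ℕ × St => InRange q.2 ∧ IndepD (q.1 + 1) q.2) := by
  refine complete_of (C := fun q : ℕ × St => InRange q.2) (P := fun q => IndepD (q.1 + 1) q.2)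
    ((ph_erh 0).reduce (fun p : St => ((0 : ℕ), p)) (by fun_prop) fun p hp => ⟨hp, Iff.rfl⟩)
    (reduces_etr (fun q : ℕ × St => fmF (q.1 + 1, q.2))
      (pt_fmF.comp (g := fun q : ℕ × St => (q.1 + 1, q.2)) (by fun_prop))
      fun q => (etr_fmF (q.1 + 1, q.2)).symm)

theorem each (k : ℕ) : ERComplete (lang fun p : St => InRange p ∧ IndepD (k + 1) p) :=
  complete_of (ph_erh k) (mem_one (k + 1))

theorem len_list (I : List (ℕ × ℕ)) (B : ℕ) (h : ∀ e ∈ I, (enc e).length ≤ B) :
    I.length ≤ (enc I).length ∧ (enc I).length ≤ I.length * (2 * B + 1) := by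
  induction I with
  | nil => exact ⟨le_rfl, Nat.zero_le _⟩
  | cons a I ih =>
    have h1 := ih fun e he => h e (List.mem_cons_of_mem _ he)
    have h2 := h a List.mem_cons_self
    have : (enc (a :: I)).length = 2 * (enc a).length + 1 + (enc I).length := by
      rw [enc_cons, pair]; simp [List.length_flatMap]; ring
    rw [this, List.length_cons, add_mul]
    omega

theorem len (p : St) (h : InRange p) : p.1 + p.2.1 + p.2.2.length ≤ (enc p).length ∧
    (enc p).length ≤ 4 * (p.1 + p.2.1 + p.2.2.length + 1) ^ 2 := by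
  obtain ⟨m, n, I⟩ := p
  have e1 : ∀ a b : ℕ, (enc (a, b)).length = 2 * a + 1 + b := fun a b => by
    change (pair _ _).length = _
    rw [pair]; simp [List.length_flatMap, enc]; ring
  obtain ⟨h1, h2⟩ := len_list I (2 * m + n) fun e he => by
    have := h e he; rw [e1]; simp only at this; omega
  have e2 : (enc (m, n, I)).length = 2 * m + 1 + (2 * n + 1 + (enc I).length) := by
    change (pair (enc m) (pair (enc n) (enc I))).length = _
    rw [pair, pair]; simp [List.length_flatMap, enc]; ring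
  simp only at h1 h2 ⊢
  rw [e2]
  refine ⟨by omega, ?_⟩
  nlinarith [Nat.zero_le (m * n), Nat.zero_le (m * I.length), Nat.zero_le (n * I.length),
    Nat.zero_le (m * m), Nat.zero_le (n * n), Nat.zero_le (I.length * I.length)]

end Pool.Agent.KS6_48.PH
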