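import Pool.Agent.KS6_48.PH.Tst

/-!
From the plane to higher dimensions.
-/

namespace Pool.Agent.KS6_48.PH

open Finset Matrix Pool.Agent.H38.NP Pool.Agent.H38.ER Pool.Agent.H38.Icd

variable {κ : Type} [Fintype κ] {r m n : ℕ} {I TP TL : List (ℕ × ℕ)}

theorem proj (hc : Fintype.card κ = r + 3) {a : Fin r → κ → ℝ} (ha : LinearIndependent ℝ a) :
    ∃ f : (κ → ℝ) →ₗ[ℝ] (Fin 3 → ℝ), (∀ x y, (∀ s, a s ⬝ᵥ y = 0) → f x ⬝ᵥ f y = x ⬝ᵥ y) ∧
      ∀ x, f x = 0 → ∃ c : Fin r → ℝ, x = ∑ s, c s • a s := by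
  let e := (WithLp.linearEquiv 2 ℝ (κ → ℝ)).symm
  let U := (Submodule.span ℝ (Set.range fun s => e (a s)))ᗮ
  have ha' : LinearIndependent ℝ fun s => e (a s) := ha.map' e.toLinearMap e.ker
  have hU : Module.finrank ℝ U = 3 := by
    have h1 := Submodule.finrank_add_finrank_orthogonal (Submodule.span ℝ (Set.range fun s => e (a s)))
    rw [finrank_span_eq_card ha'] at h1
    simp only [Fintype.card_fin, finrank_euclideanSpace, hc] at h1
    simp only [U]; omega
  let B := (stdOrthonormalBasis ℝ U).reindex (finCongr hU)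
  refine ⟨(WithLp.linearEquiv 2 ℝ (Fin 3 → ℝ)).toLinearMap ∘ₗ B.repr.toLinearEquiv.toLinearMap ∘ₗ
    U.orthogonalProjectionOnto.toLinearMap ∘ₗ e.toLinearMap, fun x y hy => ?_, fun x hx => ?_⟩
  · have my : e y ∈ U := by
      rw [Submodule.mem_orthogonal]
      intro u hu
      refine Submodule.span_induction (p := fun u _ => inner ℝ u (e y) = 0) ?_ (by simp) ?_ ?_ hu
      · rintro _ ⟨s, rfl⟩
        rw [EuclideanSpace.inner_eq_star_dotProduct, star_trivial, dotProduct_comm]; exact hy s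
      · intro u v _ _ h1 h2; rw [inner_add_left, h1, h2, add_zero]
      · intro c u _ h1; rw [inner_smul_left, h1, mul_zero]
    have h1 := B.repr.inner_map_map (U.orthogonalProjectionOnto (e y)) (U.orthogonalProjectionOnto (e x))
    rw [EuclideanSpace.inner_eq_star_dotProduct, star_trivial] at h1
    refine h1.trans ?_
    rw [show U.orthogonalProjectionOnto (e y) = ⟨e y, my⟩ from
      Submodule.orthogonalProjectionOnto_mem_subspace_eq_self ⟨e y, my⟩,
      Submodule.inner_orthogonalProjectionOnto_eq_of_mem_left ⟨e y, my⟩ (e x),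
      EuclideanSpace.inner_eq_star_dotProduct, star_trivial]
    rfl
  · have h1 : U.orthogonalProjectionOnto (e x) = 0 := by
      refine B.repr.injective ((WithLp.linearEquiv 2 ℝ (Fin 3 → ℝ)).injective ?_)
      simpa using hx
    have h2 : e x ∈ Submodule.span ℝ (Set.range fun s => e (a s)) := by
      rw [← Submodule.orthogonal_orthogonal (Submodule.span ℝ (Set.range fun s => e (a s)))]
      exact Submodule.orthogonalProjectionOnto_eq_zero_iff.1 h1
    obtain ⟨c, hc⟩ := (Submodule.mem_span_range_iff_exists_fun ℝ).1 h2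
    refine ⟨c, e.injective ?_⟩
    rw [← hc, map_sum]; simp only [map_smul]

def cone (r : ℕ) (p : St) : St := (p.1 + r, p.2.1 + r, p.2.2 ++
  (List.range r).flatMap fun s => (List.range p.2.1).map fun j => (p.1 + s, j))

def apx (r m : ℕ) : List ℕ := (List.range r).map fun s => m + s

def tsP (r m : ℕ) (TP : List (ℕ × ℕ)) : List (List ℕ) :=
  (TP.map fun e => e.1 :: e.2 :: apx r m) ++ (List.range m).map fun i => i :: apx r m

def tsL (TL : List (ℕ × ℕ)) : List (List ℕ) := TL.map fun e => [e.1, e.2]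

def lft (r : ℕ) (p : St) (TP TL : List (ℕ × ℕ)) : St :=
  exP (r + 3) (exH (r + 3) (cone r p) (tsP r p.1 TP)) (tsL TL)

theorem mem_cone {i j : ℕ} : (i, j) ∈ (cone r (m, n, I)).2.2 ↔ (i, j) ∈ I ∨
    ∃ s < r, i = m + s ∧ j < n := by
  simp only [cone, List.mem_append, List.mem_flatMap, List.mem_range, List.mem_map, Prod.mk.injEq]
  refine or_congr_right (exists_congr fun s => ?_)
  constructor
  · rintro ⟨h1, a, h2, rfl, rfl⟩; exact ⟨h1, rfl, h2⟩
  · rintro ⟨h1, rfl, h2⟩; exact ⟨h1, _, h2, rfl, rfl⟩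

theorem cone_rg (h : InRange (m, n, I)) : InRange (cone r (m, n, I)) := fun ⟨i, j⟩ he => by
  rcases mem_cone.1 he with k | ⟨s, hs, rfl, k⟩
  · have := h _ k; simp only [cone] at this ⊢; omega
  · simp only [cone]; omega

theorem mem_apx {i : ℕ} : i ∈ apx r m ↔ ∃ s < r, i = m + s := by
  simp only [apx, List.mem_map, List.mem_range, eq_comm]

theorem len_apx : (apx r m).length = r := by simp [apx]

theorem tsP_prop (hp : Ok m TP) : ∀ S ∈ tsP r m TP, (∀ i ∈ S, i < m + r) ∧ S.length < r + 3 ∧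
    ∃ i ∈ S, i < m + r := by
  simp only [tsP, List.forall_mem_append, List.forall_mem_map, List.mem_cons, mem_apx,
    List.length_cons, len_apx, List.mem_range]
  refine ⟨fun e he => ?_, fun i hi => ?_⟩
  · obtain ⟨h1, h2, -⟩ := hp e he
    refine ⟨?_, by omega, e.1, .inl rfl, by omega⟩
    rintro i (rfl | rfl | ⟨s, hs, rfl⟩) <;> omega
  · refine ⟨?_, by omega, i, .inl rfl, by omega⟩
    rintro j (rfl | ⟨s, hs, rfl⟩) <;> omega

theorem tsL_prop {N : ℕ} (hl : Ok n TL) (hN : n ≤ N) : ∀ S ∈ tsL TL, (∀ i ∈ S, i < N) ∧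
    S.length < r + 3 ∧ ∃ i ∈ S, i < N := by
  simp only [tsL, List.forall_mem_map, List.mem_cons, List.not_mem_nil, or_false, List.length_cons,
    List.length_nil]
  intro e he
  obtain ⟨h1, h2, -⟩ := hl e he
  refine ⟨?_, by omega, e.1, .inl rfl, by omega⟩
  rintro i (rfl | rfl) <;> omega

def cmb (r m i j : ℕ) (x y : ℝ) (c : Fin r → ℝ) (t : ℕ) : ℝ := (if t = i then x else 0) +
  (if t = j then y else 0) + if h : m ≤ t ∧ t < m + r then c ⟨t - m, by omega⟩ else 0

theorem sum_cmb {M : Type} [AddCommGroup M] [Module ℝ M] {i j : ℕ} (hi : i < m) (hj : j < m)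
    (x y : ℝ) (c : Fin r → ℝ) (P : ℕ → M) :
    ∑ t ∈ range (m + r), cmb r m i j x y c t • P t = x • P i + y • P j + ∑ s, c s • P (m + s) := by
  have e : ∑ t ∈ range (m + r), (if h : m ≤ t ∧ t < m + r then c ⟨t - m, by omega⟩ else 0) • P t =
      ∑ s, c s • P (m + s) := by
    rw [sum_range_add, sum_eq_zero fun t ht => by
      rw [dif_neg (by have := mem_range.1 ht; omega), zero_smul], zero_add, Finset.sum_range]
    exact sum_congr rfl fun t _ => by simp
  simp only [cmb, add_smul, sum_add_distrib, e, ite_smul, zero_smul, sum_ite_eq', mem_range]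
  rw [if_pos (by omega), if_pos (by omega)]

theorem cmb_mem {i j : ℕ} {x y : ℝ} {c : Fin r → ℝ} {t : ℕ} (h : cmb r m i j x y c t ≠ 0) :
    t = i ∨ (t = j ∧ y ≠ 0) ∨ t ∈ apx r m := by
  by_contra k
  push Not at k
  obtain ⟨k1, k2, k3⟩ := k
  apply h
  have : ¬ (m ≤ t ∧ t < m + r) := fun e => k3 (mem_apx.2 ⟨t - m, by omega, by omega⟩)
  by_cases e : t = j
  · have := k2 e; simp_all [cmb]
  · simp_all [cmb]

omit [Fintype κ] in
theorem fr2 {i j : ℕ} (hi : i < m) (hj : j < m) (hij : i ≠ j) {P : ℕ → κ → ℝ}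
    (h : Fr (m + r) P (i :: j :: apx r m)) {x y : ℝ} {c : Fin r → ℝ}
    (e : x • P i + y • P j + ∑ s, c s • P (m + s) = 0) : x = 0 ∧ y = 0 := by
  have := h (cmb r m i j x y c) (fun t ht => by
    rcases cmb_mem ht with k | ⟨k, -⟩ | k <;> simp [k]) ((sum_cmb hi hj x y c P).trans e)
  have h1 := this i
  have h2 := this j
  simp only [cmb, if_pos, if_neg hij, if_neg hij.symm] at h1 h2
  rw [dif_neg (by omega)] at h1 h2
  simp only [add_zero, zero_add] at h1 h2
  exact ⟨h1, h2⟩

omit [Fintype κ] in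
theorem fr1 {i : ℕ} (hi : i < m) {P : ℕ → κ → ℝ}
    (h : Fr (m + r) P (i :: apx r m)) {x : ℝ} {c : Fin r → ℝ}
    (e : x • P i + ∑ s, c s • P (m + s) = 0) : x = 0 ∧ ∀ s, c s = 0 := by
  have := h (cmb r m i i x 0 c) (fun t ht => by
    rcases cmb_mem ht with k | ⟨-, k⟩ | k
    · simp [k]
    · exact absurd rfl k
    · simp [k]) ((sum_cmb hi hi x 0 c P).trans (by rw [← e]; simp))
  have h1 := this i
  simp only [cmb, if_true, ite_self] at h1
  rw [dif_neg (by omega)] at h1
  simp only [add_zero] at h1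
  refine ⟨h1, fun s => ?_⟩
  have h2 := this (m + s)
  simp only [cmb, ite_self, if_neg (show m + (s : ℕ) ≠ i by omega)] at h2
  simpa using h2

theorem lft_s (hc : Fintype.card κ = r + 3) (h : InRange (m, n, I)) (hp : Ok m TP) (hl : Ok n TL)
    (hm : 0 < m) {P L : ℕ → κ → ℝ} (R : RzD (lft r (m, n, I) TP TL) P L)
    (S : NoD (lft r (m, n, I) TP TL) P L) :
    ∃ P' L' : ℕ → V, Rz (m, n, I) P' L' ∧ Li P' TP ∧ Li L' TL := by
  have g1 := cone_rg (r := r) h
  have g2 := exH_rg (D := r + 3) g1 fun S hS => (tsP_prop hp S hS).1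
  obtain ⟨R2, S2, F2⟩ := exH_s hc (rg_sw.2 g2) (T := tsL TL) (fun S hS =>
    (tsL_prop (r := r) hl (by simp only [exH]; omega) S hS).2.2) (rz_sw.1 R) (no_sw.1 S)
  obtain ⟨⟨r1, r2, r3⟩, -, F1⟩ := exH_s hc g1 (T := tsP r m TP) (fun S hS => (tsP_prop hp S hS).2.2)
    (rz_sw.1 R2) (no_sw.1 S2)
  simp only [cone] at r1 r2
  simp only [tsP, List.forall_mem_append, List.forall_mem_map, List.mem_range] at F1
  simp only [tsL, List.forall_mem_map] at F2
  obtain ⟨F1, F3⟩ := F1
  obtain ⟨f, f1, f2⟩ := proj hc (a := fun s : Fin r => P (m + s)) (Fintype.linearIndependent_iff.2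
    fun g hg => (fr1 hm (F3 0 hm) (x := 0) (c := g) (by rw [hg]; simp)).2)
  have ap : ∀ j < n, ∀ s : Fin r, P (m + s) ⬝ᵥ L j = 0 := fun j hj s =>
    r3 (m + s, j) (mem_cone.2 (.inr ⟨s, s.2, rfl, hj⟩))
  refine ⟨fun i => f (P i), fun j => f (L j), ⟨fun i hi e => ?_, fun j hj e => ?_, fun e he => ?_⟩,
    fun e he => ?_, fun e he => ?_⟩
  · obtain ⟨c, hc⟩ := f2 _ e
    exact one_ne_zero (fr1 hi (F3 i hi) (x := 1) (c := fun s => -c s) (by
      rw [hc]; simp only [one_smul, neg_smul, sum_neg_distrib]; abel)).1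
  · have := f1 (L j) (L j) (ap j hj)
    rw [show f (L j) = 0 from e, dotProduct_zero] at this
    exact r2 j (by simp only at hj; omega) (dotProduct_self_eq_zero.1 this.symm)
  · exact (f1 _ _ (ap _ (h e he).2)).trans (r3 _ (mem_cone.2 (.inl he)))
  · obtain ⟨h1, h2, h3⟩ := hp e he
    refine crossProduct_ne_zero_iff_linearIndependent.2 (LinearIndependent.pair_iff.2 fun s t k => ?_)
    rw [← map_smul, ← map_smul, ← map_add] at k
    obtain ⟨c, hc⟩ := f2 _ k
    exact fr2 h1 h2 h3 (F1 e he) (c := fun s => -c s) (by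
      rw [hc]; simp only [neg_smul, sum_neg_distrib]; abel)
  · obtain ⟨h1, h2, h3⟩ := hl e he
    refine crossProduct_ne_zero_iff_linearIndependent.2 (LinearIndependent.pair_iff.2 fun s t k => ?_)
    rw [← map_smul, ← map_smul, ← map_add] at k
    have k2 := f1 (s • L e.1 + t • L e.2) (s • L e.1 + t • L e.2) fun u => by
      rw [dotProduct_add, dotProduct_smul, dotProduct_smul, ap _ h1, ap _ h2]; simp
    rw [k, dotProduct_zero] at k2
    have k3 := dotProduct_self_eq_zero.1 k2.symm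
    have k4 := F2 e he (fun i => (if i = e.1 then s else 0) + if i = e.2 then t else 0) (fun i hi => by
      by_contra k; simp only [List.mem_cons, List.not_mem_nil, or_false, not_or] at k
      exact hi (by simp [k])) (by
      simp only [add_smul, sum_add_distrib, ite_smul, zero_smul, sum_ite_eq', mem_range]
      rw [if_pos (by simp only [sw, exH, cone]; omega), if_pos (by simp only [sw, exH, cone]; omega)]
      exact k3)
    have k5 := k4 e.1
    have k6 := k4 e.2
    simp only [if_true, if_neg h3, if_neg (Ne.symm h3), add_zero, zero_add] at k5 k6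
    exact ⟨k5, k6⟩

end Pool.Agent.KS6_48.PH
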