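import Pool.Agent.KS6_48.PH.Defs

/-!
Independence in homogeneous coordinates.
-/

namespace Pool.Agent.KS6_48.PH

open Finset Matrix Pool.Agent.H38.NP Pool.Agent.H38.ER Pool.Agent.H38.Icd

theorem bridgeD {k m n : ℕ} {I : List (ℕ × ℕ)} (h : InRange (m, n, I)) (x A : ℕ → Fin k → ℝ) :
    (LinearIndependent ℝ fun e : {e // e ∈ I} => rowD k m n x A e) ↔ ∀ l : ℕ → ℕ → ℝ,
      (∀ i j, l i j ≠ 0 → (i, j) ∈ I) →
      (∀ i < m, ∑ j ∈ range n, l i j = 0 ∧ ∑ j ∈ range n, l i j • A j = 0) →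
      (∀ j < n, ∑ i ∈ range m, l i j = 0 ∧ ∑ i ∈ range m, l i j • x i = 0) → ∀ i j, l i j = 0 := by
  classical
  have key : ∀ l : ℕ → ℕ → ℝ, (∀ i j, l i j ≠ 0 → (i, j) ∈ I) →
      (∑ e : {e // e ∈ I}, l e.1.1 e.1.2 • rowD k m n x A e = 0 ↔
      (∀ i < m, ∑ j ∈ range n, l i j = 0 ∧ ∑ j ∈ range n, l i j • A j = 0) ∧
      ∀ j < n, ∑ i ∈ range m, l i j = 0 ∧ ∑ i ∈ range m, l i j • x i = 0) := fun l hl => by
    have : ∑ e : {e // e ∈ I}, l e.1.1 e.1.2 • rowD k m n x A e =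
        ∑ i ∈ range m, ∑ j ∈ range n, l i j • rowD k m n x A (i, j) := by
      rw [← sum_product', ← sum_subtype I.toFinset (by simp) fun e => l e.1 e.2 • rowD k m n x A e]
      refine sum_subset (fun e he => by simpa using h e (by simpa using he)) fun e _ he => ?_
      rw [of_not_not (mt (hl e.1 e.2) (by simpa using he)), zero_smul]
    rw [this, funext_iff]
    simp only [Sum.forall, Prod.forall, Option.forall, Finset.sum_apply, Pi.smul_apply, rowD,
      smul_eq_mul, mul_ite, mul_zero, Option.elim, mul_one, Pi.zero_apply, sum_ite_irrel,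
      sum_const_zero, sum_ite_eq, mem_range, Fin.is_lt, if_true, Fin.forall_iff, funext_iff]
  rw [Fintype.linearIndependent_iff]
  refine ⟨fun H l hl h1 h2 i j => by_contra fun k =>
    k (H (fun e => l e.1.1 e.1.2) ((key l hl).2 ⟨h1, h2⟩) ⟨_, hl i j k⟩), fun H g hg e => ?_⟩
  have s : ∀ i j, (if h : (i, j) ∈ I then g ⟨_, h⟩ else 0) ≠ 0 → (i, j) ∈ I := fun i j k => by
    by_contra h; simp [h] at k
  obtain ⟨h1, h2⟩ := (key _ s).1 (by simpa [Subtype.prop] using hg)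
  simpa [e.2] using H _ s h1 h2 e.1.1 e.1.2

end Pool.Agent.KS6_48.PH
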