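import Pool.Agent.KS6_48.PH.Hom

/-!
Tests that force a set of points, or of hyperplanes, to be linearly independent.
-/

namespace Pool.Agent.KS6_48.PH

open Finset Matrix Pool.Agent.H38.NP Pool.Agent.H38.ER Pool.Agent.H38.Icd

variable {κ : Type} [Fintype κ]

def exH (D : ℕ) (p : St) (T : List (List ℕ)) : St := (p.1, p.2.1 + D * T.length,
  p.2.2 ++ (List.range (D * T.length)).flatMap fun s =>
    (T.getD (s / D) []).map fun i => (i, p.2.1 + s))

def Fr (m : ℕ) (P : ℕ → κ → ℝ) (S : List ℕ) : Prop := ∀ c : ℕ → ℝ, (∀ i, c i ≠ 0 → i ∈ S) →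
  ∑ i ∈ range m, c i • P i = 0 → ∀ i, c i = 0

variable {D m n : ℕ} {I : List (ℕ × ℕ)} {T : List (List ℕ)}

theorem mem_exH {i j : ℕ} : (i, j) ∈ (exH D (m, n, I) T).2.2 ↔ (i, j) ∈ I ∨
    ∃ s < D * T.length, j = n + s ∧ i ∈ T.getD (s / D) [] := by
  simp only [exH, List.mem_append, List.mem_flatMap, List.mem_range, List.mem_map, Prod.mk.injEq]
  refine or_congr_right (exists_congr fun s => ?_)
  constructor
  · rintro ⟨h1, a, h2, rfl, rfl⟩; exact ⟨h1, rfl, h2⟩
  · rintro ⟨h1, rfl, h2⟩; exact ⟨h1, _, h2, rfl, rfl⟩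

theorem tmem {s : ℕ} (h : s < D * T.length) : T.getD (s / D) [] ∈ T := by
  have := Nat.div_lt_of_lt_mul h
  rw [List.getD_eq_getElem _ _ this]; exact List.getElem_mem _

theorem exH_rg (h : InRange (m, n, I)) (hT : ∀ S ∈ T, ∀ i ∈ S, i < m) :
    InRange (exH D (m, n, I) T) := fun ⟨i, j⟩ he => by
  rcases mem_exH.1 he with k | ⟨s, hs, rfl, k⟩
  · have := h _ k
    simp only [exH] at this ⊢
    omega
  · exact ⟨hT _ (tmem hs) _ k, by simp only [exH]; omega⟩

theorem dep {N z : ℕ} (hD : Fintype.card κ = D) {L : ℕ → κ → ℝ} {a : κ → ℝ} (ha : a ≠ 0)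
    (h : ∀ t < D, a ⬝ᵥ L (z + t) = 0) (hz : z + D ≤ N) : ∃ G : ℕ → ℝ,
    (∀ j, G j ≠ 0 → ∃ t < D, j = z + t) ∧ ∑ j ∈ range N, G j • L j = 0 ∧ ∃ j, G j ≠ 0 := by
  by_cases li : LinearIndependent ℝ fun t : Fin D => L (z + t)
  · refine absurd (dotProduct_self_eq_zero.1 ?_) ha
    have := li.span_eq_top_of_card_eq_finrank' (by simp [hD])
    have m : a ∈ Submodule.span ℝ (Set.range fun t : Fin D => L (z + t)) := this ▸ trivial
    refine Submodule.span_induction (p := fun x _ => a ⬝ᵥ x = 0) ?_ (by simp) ?_ ?_ m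
    · rintro _ ⟨t, rfl⟩; exact h t t.2
    · intro x y _ _ hx hy; rw [dotProduct_add, hx, hy, add_zero]
    · intro c x _ hx; rw [dotProduct_smul, hx, smul_zero]
  · obtain ⟨g, hg, i, hi⟩ := Fintype.not_linearIndependent_iff.1 li
    refine ⟨fun j => if h : z ≤ j ∧ j < z + D then g ⟨j - z, by omega⟩ else 0, fun j hj => ?_, ?_,
      z + i, by simpa using hi⟩
    · beta_reduce at hj
      split_ifs at hj with h
      · exact ⟨j - z, by omega, by omega⟩
      · exact absurd rfl hj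
    · rw [← sum_subset (s₁ := Ico z (z + D)) (fun j hj => by
        rw [Finset.mem_Ico] at hj; rw [mem_range]; omega) fun j _ hj => by
        rw [Finset.mem_Ico] at hj; beta_reduce; rw [dif_neg hj, zero_smul], Finset.sum_Ico_eq_sum_range,
        Nat.add_sub_cancel_left, Finset.sum_range, ← hg]
      exact sum_congr rfl fun t _ => by simp

theorem exH_s (hD : Fintype.card κ = D) (h : InRange (m, n, I)) (hT : ∀ S ∈ T, ∃ i ∈ S, i < m)
    {P L : ℕ → κ → ℝ} (r : RzD (exH D (m, n, I) T) P L) (s : NoD (exH D (m, n, I) T) P L) :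
    RzD (m, n, I) P L ∧ NoD (m, n, I) P L ∧ ∀ S ∈ T, Fr m P S := by
  obtain ⟨r1, r2, r3⟩ := r
  simp only [exH] at r1 r2
  refine ⟨⟨r1, fun j hj => r2 j (by simp only at hj; omega), fun e he => r3 e (mem_exH.2 (.inl he))⟩,
    fun l hl a b => ?_, fun S hS f f1 f2 => ?_⟩
  · refine s l (fun i j k => mem_exH.2 (.inl (hl i j k))) (fun i hi => ?_) fun j hj => ?_
    · simp only [exH]
      rw [sum_range_add, sum_eq_zero (s := range (D * T.length)) fun j _ => by
        rw [of_not_not (mt (hl _ _) fun k => by simpa using (h _ k).2), zero_smul], add_zero]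
      exact a i hi
    · by_cases k : j < n
      · exact b j k
      · exact sum_eq_zero fun i _ => by
          rw [of_not_not (mt (hl i j) fun e => k (h _ e).2), zero_smul]
  · obtain ⟨c, hc, ec⟩ := List.getElem_of_mem hS
    obtain ⟨a, ha, am⟩ := hT S hS
    have e : D * c + D ≤ D * T.length := by
      rw [← Nat.mul_succ]; exact Nat.mul_le_mul_left _ hc
    have mm : ∀ t < D, ∀ i ∈ S, (i, n + D * c + t) ∈ (exH D (m, n, I) T).2.2 := fun t ht i hi =>
      mem_exH.2 (.inr ⟨D * c + t, by omega, by omega, by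
        rwa [Nat.mul_add_div (by omega), Nat.div_eq_of_lt ht, add_zero, List.getD_eq_getElem _ _ hc,
          ec]⟩)
    obtain ⟨G, g1, g2, j, g3⟩ := dep (N := n + D * T.length) (z := n + D * c) hD (r1 a am)
      (fun t ht => r3 _ (mm t ht a ha)) (by omega)
    refine fun i => (mul_eq_zero.1 (s (fun i j => f i * G j) (fun i j k => ?_) (fun i _ => ?_)
      (fun j _ => ?_) i j)).resolve_right g3
    · obtain ⟨t, ht, rfl⟩ := g1 j (right_ne_zero_of_mul k)
      exact mm t ht i (f1 i (left_ne_zero_of_mul k))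
    · simp only [mul_smul, ← smul_sum]; rw [show (exH D (m, n, I) T).2.1 = n + D * T.length from rfl,
        g2, smul_zero]
    · simp only [mul_comm (f _), mul_smul, ← smul_sum]
      rw [show (exH D (m, n, I) T).1 = m from rfl, f2, smul_zero]

theorem exH_c (hD : Fintype.card κ = D) (h : InRange (m, n, I))
    (hT : ∀ S ∈ T, (∀ i ∈ S, i < m) ∧ S.length < D) {P L : ℕ → κ → ℝ} (r : RzD (m, n, I) P L)
    (s : NoD (m, n, I) P L) (f : ∀ S ∈ T, Fr m P S) : ∃ L' : ℕ → κ → ℝ, (∀ j < n, L' j = L j) ∧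
      RzD (exH D (m, n, I) T) P L' ∧ NoD (exH D (m, n, I) T) P L' := by
  obtain ⟨H, hH⟩ : ∃ H : List ℕ → κ → ℝ, ∀ S : List ℕ, S.length < D →
      H S ≠ 0 ∧ ∀ i ∈ S, P i ⬝ᵥ H S = 0 := by
    have : ∀ S : List ℕ, ∃ t : κ → ℝ, S.length < D → t ≠ 0 ∧ ∀ i ∈ S, P i ⬝ᵥ t = 0 := fun S => by
      by_cases h : S.length < D
      · obtain ⟨t, h1, h2⟩ := orth (S.map P) (by simpa [hD])
        exact ⟨t, fun _ => ⟨h1, by simpa using h2⟩⟩
      · exact ⟨0, fun k => absurd k h⟩
    choose H hH using this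
    exact ⟨H, hH⟩
  obtain ⟨L', l1, l2⟩ : ∃ L' : ℕ → κ → ℝ, (∀ j < n, L' j = L j) ∧
      ∀ s, L' (n + s) = H (T.getD (s / D) []) :=
    ⟨fun j => if j < n then L j else H (T.getD ((j - n) / D) []), fun j hj => if_pos hj,
      fun s => by simp⟩
  obtain ⟨r1, r2, r3⟩ := r
  refine ⟨L', l1, ⟨r1, fun j hj => ?_, fun ⟨i, j⟩ he => ?_⟩, fun l a b c => ?_⟩
  · by_cases k : j < n
    · rw [l1 j k]; exact r2 j k
    · obtain ⟨s, rfl⟩ : ∃ s, j = n + s := ⟨j - n, by omega⟩
      rw [l2]; exact (hH _ (hT _ (tmem (by simp only [exH] at hj; omega))).2).1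
  · rcases mem_exH.1 he with k | ⟨s, hs, rfl, k⟩
    · simp only [l1 j (h _ k).2]; exact r3 _ k
    · simp only [l2]; exact (hH _ (hT _ (tmem hs)).2).2 _ k
  have new : ∀ s < D * T.length, ∀ i, l i (n + s) = 0 := fun s hs =>
    f _ (tmem hs) (fun i => l i (n + s)) (fun i k => by
      rcases mem_exH.1 (a i _ k) with k | ⟨s', hs', e, k⟩
      · simpa using (h _ k).2
      · obtain rfl : s = s' := by omega
        exact k) (c (n + s) (by simp only [exH]; omega))
  refine s l (fun i j k => ?_) (fun i hi => ?_) fun j hj => ?_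
  · rcases mem_exH.1 (a i _ k) with e | ⟨s', hs', rfl, -⟩
    · exact e
    · exact absurd (new _ hs' i) k
  · have := b i hi
    simp only [exH] at this
    rw [sum_range_add, sum_eq_zero (s := range (D * T.length)) fun j hj => by
      rw [new _ (mem_range.1 hj), zero_smul], add_zero] at this
    rw [← this]
    exact sum_congr rfl fun j hj => by rw [l1 j (mem_range.1 hj)]
  · exact c j (by simp only [exH]; simp only at hj; omega)

/-! duality -/

def sw (p : St) : St := (p.2.1, p.1, p.2.2.map Prod.swap)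

theorem mem_sw {p : St} {i j : ℕ} : (i, j) ∈ (sw p).2.2 ↔ (j, i) ∈ p.2.2 := by
  simp only [sw, List.mem_map, Prod.exists, Prod.swap_prod_mk, Prod.mk.injEq]
  exact ⟨fun ⟨a, b, h, e, e'⟩ => e ▸ e' ▸ h, fun h => ⟨_, _, h, rfl, rfl⟩⟩

theorem rg_sw {p : St} : InRange (sw p) ↔ InRange p :=
  ⟨fun h e he => (h (e.2, e.1) (mem_sw.2 he)).symm, fun h e he =>
    (h (e.2, e.1) (mem_sw.1 he)).symm⟩

theorem rz_sw {p : St} {P L : ℕ → κ → ℝ} : RzD (sw p) L P ↔ RzD p P L :=
  ⟨fun h => ⟨h.2.1, h.1, fun e he => (dotProduct_comm _ _).trans (h.2.2 (e.2, e.1) (mem_sw.2 he))⟩,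
    fun h => ⟨h.2.1, h.1, fun e he => (dotProduct_comm _ _).trans (h.2.2 (e.2, e.1) (mem_sw.1 he))⟩⟩

omit [Fintype κ] in
theorem no_sw {p : St} {P L : ℕ → κ → ℝ} : NoD (sw p) L P ↔ NoD p P L :=
  ⟨fun h l hl a b i j => h (fun i j => l j i) (fun i j k => mem_sw.2 (hl j i k)) b a j i,
    fun h l hl a b i j => h (fun i j => l j i) (fun i j k => mem_sw.1 (hl j i k)) b a j i⟩

def exP (D : ℕ) (p : St) (T : List (List ℕ)) : St := sw (exH D (sw p) T)

end Pool.Agent.KS6_48.PH
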