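import Pool.Agent.KS6_48.PH.Lift

/-!
Lifting a plane realization.
-/

namespace Pool.Agent.KS6_48.PH

open Finset Matrix Pool.Agent.H38 Pool.Agent.H38.NP Pool.Agent.H38.ER Pool.Agent.H38.Icd Pool.Agent.Lead.SR

variable {r m n : ℕ} {I TP TL : List (ℕ × ℕ)}

def up (m r : ℕ) (P : ℕ → V) (i : ℕ) : Fin 3 ⊕ Fin r → ℝ :=
  if i < m then Sum.elim (P i) 0 else Sum.elim 0 fun s => if i = m + s then 1 else 0

theorem up_lt {P : ℕ → V} {i : ℕ} (h : i < m) : up m r P i = Sum.elim (P i) 0 := if_pos h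

theorem up_ap {P : ℕ → V} (s : ℕ) : up m r P (m + s) =
    Sum.elim (0 : Fin 3 → ℝ) fun t : Fin r => if s = (t : ℕ) then (1 : ℝ) else 0 := by
  simp [up]

theorem up_sum (c : ℕ → ℝ) (P : ℕ → V) : ∑ i ∈ range (m + r), c i • up m r P i =
    Sum.elim (∑ i ∈ range m, c i • P i) fun s : Fin r => c (m + s) := by
  rw [sum_range_add]
  ext t
  rcases t with t | s
  · simp only [up_ap, Pi.add_apply, Finset.sum_apply, Pi.smul_apply, Sum.elim_inl, Pi.zero_apply,
      smul_zero, sum_const_zero, add_zero]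
    exact sum_congr rfl fun i hi => by rw [up_lt (mem_range.1 hi), Sum.elim_inl]
  · simp only [up_ap, Pi.add_apply, Finset.sum_apply, Pi.smul_apply, Sum.elim_inr, smul_eq_mul,
      mul_ite, mul_one, mul_zero]
    rw [sum_eq_zero fun i hi => by rw [up_lt (mem_range.1 hi)]; simp, zero_add]
    simp

theorem up_zero {c : ℕ → ℝ} {P : ℕ → V} (h : ∑ i ∈ range (m + r), c i • up m r P i = 0) :
    ∑ i ∈ range m, c i • P i = 0 ∧ ∀ s < r, c (m + s) = 0 := by
  rw [up_sum] at h
  exact ⟨funext fun t => congrFun h (.inl t), fun s hs => congrFun h (.inr ⟨s, hs⟩)⟩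

theorem up_ne {P : ℕ → V} (h : ∀ i < m, P i ≠ 0) : ∀ i < m + r, up m r P i ≠ 0 := fun i hi e => by
  by_cases k : i < m
  · rw [up_lt k] at e
    exact h i k (funext fun t => congrFun e (.inl t))
  · obtain ⟨s, rfl⟩ : ∃ s, i = m + s := ⟨i - m, by omega⟩
    rw [up_ap] at e
    simpa using congrFun e (.inr ⟨s, by omega⟩)

theorem frP {P : ℕ → V} (h : ∀ i < m, P i ≠ 0) (hp : Ok m TP) (lp : Li P TP) :
    ∀ S ∈ tsP r m TP, Fr (m + r) (up m r P) S := by
  simp only [tsP, List.forall_mem_append, List.forall_mem_map, List.mem_range]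
  refine ⟨fun e he c hc k => ?_, fun i hi c hc k => ?_⟩
  · obtain ⟨k1, k2⟩ := up_zero k
    obtain ⟨h1, h2, h3⟩ := hp e he
    have hc' : ∀ i, c i ≠ 0 → i = e.1 ∨ i = e.2 := fun i hi => by
      have := hc i hi
      simp only [List.mem_cons, mem_apx] at this
      rcases this with e | e | ⟨s, hs, rfl⟩
      exacts [.inl e, .inr e, absurd (k2 s hs) hi]
    rw [sum2 _ h3 h1 h2 fun i hi => hc' i (left_ne_zero_of_smul hi)] at k1
    obtain ⟨a, b⟩ := two (lp e he) k1
    intro i
    by_contra hi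
    rcases hc' i hi with rfl | rfl
    exacts [hi a, hi b]
  · obtain ⟨k1, k2⟩ := up_zero k
    have hc' : ∀ j, c j ≠ 0 → j = i := fun j hj => by
      have := hc j hj
      simp only [List.mem_cons, mem_apx] at this
      rcases this with e | ⟨s, hs, rfl⟩
      exacts [e, absurd (k2 s hs) hj]
    rw [sum_eq_single i (fun j _ hj => by rw [of_not_not (mt (hc' j) hj), zero_smul])
      (fun hj => absurd (mem_range.2 hi) hj)] at k1
    intro j
    by_contra hj
    obtain rfl := hc' j hj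
    exact (smul_ne_zero hj (h j hi)) k1

theorem lft_c (h : InRange (m, n, I)) (hp : Ok m TP) (hl : Ok n TL) {P L : ℕ → V}
    (R : Rz (m, n, I) P L) (S : NoS (m, n, I) P L) (lp : Li P TP) (ll : Li L TL) :
    ∃ P' L' : ℕ → Fin 3 ⊕ Fin r → ℝ, (∀ i < m + r, P' i = up m r P i) ∧
      (∀ j < n + r, L' j = up n r L j) ∧ RzD (lft r (m, n, I) TP TL) P' L' ∧
      NoD (lft r (m, n, I) TP TL) P' L' := by
  have hc : Fintype.card (Fin 3 ⊕ Fin r) = r + 3 := by simp [add_comm]
  have g1 := cone_rg (r := r) h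
  have g2 := exH_rg (D := r + 3) g1 fun S hS => (tsP_prop hp S hS).1
  obtain ⟨R1, R2, R3⟩ := R
  have rz1 : RzD (cone r (m, n, I)) (up m r P) (up n r L) := by
    refine ⟨up_ne R1, up_ne R2, fun ⟨i, j⟩ he => ?_⟩
    rcases mem_cone.1 he with k | ⟨s, hs, rfl, hj⟩
    · have := h _ k
      simp only [up_lt this.1, up_lt this.2, sumElim_dotProduct_sumElim]
      simpa using R3 _ k
    · simp only [up_ap, up_lt hj, sumElim_dotProduct_sumElim]
      simp
  have no1 : NoD (cone r (m, n, I)) (up m r P) (up n r L) := fun l hl a b => by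
    simp only [cone] at a b
    have z : ∀ s < r, ∀ j < n, l (m + s) j = 0 := fun s hs j hj =>
      (up_zero (b j (by omega))).2 s hs
    have l' : ∀ i j, l i j ≠ 0 → (i, j) ∈ I := fun i j k => by
      rcases mem_cone.1 (hl i j k) with e | ⟨s, hs, rfl, hj⟩
      exacts [e, absurd (z s hs j hj) k]
    exact S l l' (fun i hi => (up_zero (a i (by simp only at hi; omega))).1)
      fun j hj => (up_zero (b j (by simp only at hj; omega))).1
  obtain ⟨L', l1, rz2, no2⟩ := exH_c hc g1 (T := tsP r m TP) (fun S hS =>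
    ⟨(tsP_prop hp S hS).1, (tsP_prop hp S hS).2.1⟩) rz1 no1 (frP R1 hp lp)
  obtain ⟨P', p1, rz3, no3⟩ := exH_c hc (rg_sw.2 g2) (T := tsL TL) (fun S hS =>
    have := tsL_prop (r := r) hl (by simp only [exH]; omega) S hS
    ⟨this.1, this.2.1⟩) (rz_sw.2 rz2) (no_sw.2 no2) (by
    simp only [tsL, List.forall_mem_map]
    intro e he c hc k
    obtain ⟨h1, h2, h3⟩ := hl e he
    have hc' : ∀ i, c i ≠ 0 → i = e.1 ∨ i = e.2 := fun i hi => by simpa using hc i hi
    rw [sum2 _ h3 (by simp only [exH]; omega) (by simp only [exH]; omega) fun i hi =>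
      hc' i (left_ne_zero_of_smul hi), l1 _ (by simp only; omega), l1 _ (by simp only; omega),
      up_lt h1, up_lt h2] at k
    obtain ⟨a, b⟩ := two (ll e he) (funext fun t => congrFun k (.inl t))
    intro i
    by_contra hi
    rcases hc' i hi with rfl | rfl
    exacts [hi a, hi b])
  exact ⟨P', L', p1, l1, rz_sw.2 rz3, no_sw.2 no3⟩

theorem up_nd {N : ℕ} {P : ℕ → V} {P' : ℕ → Fin 3 ⊕ Fin r → ℝ} (hN : m + r ≤ N)
    (e : ∀ i < m + r, P' i = up m r P i) (f : ∀ z : V, (∀ i < m, P i ⬝ᵥ z = 0) → z = 0)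
    {z : Fin 3 ⊕ Fin r → ℝ} (h : ∀ i < N, P' i ⬝ᵥ z = 0) : z = 0 := by
  have h1 : ∀ s : Fin r, z (.inr s) = 0 := fun s => by
    have := h (m + s) (by omega)
    rw [e _ (by omega), up_ap] at this
    simpa [dotProduct, Fin.val_inj] using this
  have h2 := f (fun t => z (.inl t)) fun i hi => by
    have := h i (by omega)
    rw [e _ (by omega), up_lt hi] at this
    simpa [dotProduct] using this
  ext t
  rcases t with t | t
  exacts [congrFun h2 t, h1 t]

section PTime

variable {α : Type} [Enc α]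

@[fun_prop] theorem pt_exH {D : α → ℕ} {p : α → St} {T : α → List (List ℕ)} (hD : PT D) (hp : PT p)
    (hT : PT T) : PT fun a => exH (D a) (p a) (T a) := by unfold exH; fun_prop
@[fun_prop] theorem pt_sw {p : α → St} (hp : PT p) : PT fun a => sw (p a) := by
  unfold sw Prod.swap; fun_prop
@[fun_prop] theorem pt_cone {r : α → ℕ} {p : α → St} (hr : PT r) (hp : PT p) :
    PT fun a => cone (r a) (p a) := by unfold cone; fun_prop
@[fun_prop] theorem pt_apx {r m : α → ℕ} (hr : PT r) (hm : PT m) : PT fun a => apx (r a) (m a) := by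
  unfold apx; fun_prop
@[fun_prop] theorem pt_tsP {r m : α → ℕ} {T : α → List (ℕ × ℕ)} (hr : PT r) (hm : PT m) (hT : PT T) :
    PT fun a => tsP (r a) (m a) (T a) := by unfold tsP; fun_prop
@[fun_prop] theorem pt_tsL {T : α → List (ℕ × ℕ)} (hT : PT T) : PT fun a => tsL (T a) := by
  unfold tsL; fun_prop
@[fun_prop] theorem pt_lft {r : α → ℕ} {p : α → St} {T T' : α → List (ℕ × ℕ)} (hr : PT r) (hp : PT p)
    (hT : PT T) (hT' : PT T') : PT fun a => lft (r a) (p a) (T a) (T' a) := by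
  unfold lft exP; fun_prop

end PTime

theorem lft_1 (p : St) : p.1 + r ≤ (lft r p TP TL).1 := Nat.le_add_right _ _

theorem lft_2 (p : St) : p.2.1 + r ≤ (lft r p TP TL).2.1 := Nat.le_add_right _ _

theorem lft_rg (h : InRange (m, n, I)) (hp : Ok m TP) (hl : Ok n TL) :
    InRange (lft r (m, n, I) TP TL) :=
  rg_sw.2 (exH_rg (rg_sw.2 (exH_rg (D := r + 3) (cone_rg h) fun S hS => (tsP_prop hp S hS).1))
    fun S hS => (tsL_prop (r := r) hl (by simp only [exH, cone]; omega) S hS).1)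

theorem ph_erh (r : ℕ) : ERH InRange (IndepD (r + 1)) := by
  refine sr1_erh.reduce (fun p => lft r (base p) (tP p) (tL p))
    (pt_lft (by fun_prop) (by unfold base Icd.gad Icd.frame; fun_prop) (by unfold tP; fun_prop)
      (by unfold tL; fun_prop)) ?_
  rintro ⟨m, n, E⟩ -
  obtain ⟨b1, b2, b3⟩ := base_ok (m := m) (n := n) (E := E)
  have g := lft_rg (r := r) b1 b2 b3
  have c1 : 3 ≤ (base (m, n, E)).1 := by simp only [base]; omega
  have c2 : 3 ≤ (base (m, n, E)).2.1 := by simp only [base]; omega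
  refine ⟨g, fun h => ?_, fun h => ?_⟩
  · obtain ⟨P, L, R, s, lp, ll, f, f'⟩ := base_c h
    obtain ⟨P', L', e1, e2, r', s'⟩ := lft_c (r := r) b1 b2 b3 R s lp ll
    refine ind_cD (by simp; omega) g r' s' (fun z k => up_nd (lft_1 _) e1 (fun z k => ?_) k)
      fun z k => up_nd (lft_2 _) e2 (fun z k => ?_)
        fun j hj => (dotProduct_comm _ _).trans (k j hj)
    · have k0 := k 0 (c1.trans' (by omega))
      have k1 := k 1 (c1.trans' (by omega))
      have k2 := k 2 (c1.trans' (by omega))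
      rw [d3] at k0 k1 k2
      simp_all [v3]
    · have k0 := k 0 (c2.trans' (by omega))
      have k1 := k 1 (c2.trans' (by omega))
      have k2 := k 2 (c2.trans' (by omega))
      rw [d3] at k0 k1 k2
      simp_all [v3]
  · obtain ⟨P, L, R, s⟩ := ind_sD g h
    obtain ⟨P', L', r', lp, ll⟩ := lft_s (by simp) b1 b2 b3 (c1.trans' (by omega)) R s
    exact base_s r' lp ll

end Pool.Agent.KS6_48.PH
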